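import Pool.Agent.Y932.NE.Clo

/-!
# Project NE: many zeros close to the origin (S_CLK)
-/

set_option autoImplicit false

open Metric Set

namespace Pool.Agent.Y932.NE.Clk

open Pool.Agent.Y932.NE.Clo (exists_log)

/-- an analytic function with bounded real part is nearly quadratic near the origin -/
theorem quad (h : ℂ → ℂ) (R M X : ℝ) (hR : 0 < R) (hM : 0 < M) (hX : 0 < X) (hXR : 4 * X ≤ R)
    (hd : DifferentiableOn ℂ h (ball 0 R)) (h0 : h 0 = 0)
    (hre : ∀ z ∈ ball (0 : ℂ) R, (h z).re ≤ M) :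
    ∃ a b : ℂ, ∀ x : ℝ, |x| ≤ X → ‖h (x : ℂ) - (a * x + b * x ^ 2)‖ ≤ 4 * M * (2 * X / R) ^ 3 := by
  have hR2 : 0 < R / 2 := by positivity
  have hsub : closedBall (0 : ℂ) (R / 2) ⊆ ball 0 R := closedBall_subset_ball (by linarith)
  have hb : ∀ z ∈ sphere (0 : ℂ) (R / 2), ‖h z‖ ≤ 2 * M := by
    intro z hz
    have hz' : ‖z‖ = R / 2 := by rwa [mem_sphere_zero_iff_norm] at hz
    have h1 := Complex.borelCaratheodory_zero hM hd (fun z hz => hre z hz) hR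
      (hsub (sphere_subset_closedBall hz)) h0
    rw [hz'] at h1
    refine h1.trans (le_of_eq ?_)
    field_simp
    ring
  have hdc : DiffContOnCl ℂ h (ball 0 (R / 2)) := by
    refine DifferentiableOn.diffContOnCl ?_
    rw [closure_ball _ hR2.ne']
    exact hd.mono hsub
  set a : ℕ → ℂ := fun n => ((n.factorial : ℂ))⁻¹ * iteratedDeriv n h 0 with ha
  have hcoef : ∀ n : ℕ, ‖a n‖ ≤ 2 * M * (2 / R) ^ n := by
    intro n
    have h1 := Complex.norm_iteratedDeriv_le_of_forall_mem_sphere_norm_le n hR2 hdc hb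
    have hn : (0 : ℝ) < n.factorial := by exact_mod_cast n.factorial_pos
    simp only [ha]
    rw [norm_mul, norm_inv, Complex.norm_natCast]
    calc ((n.factorial : ℝ))⁻¹ * ‖iteratedDeriv n h 0‖
        ≤ ((n.factorial : ℝ))⁻¹ * (n.factorial * (2 * M) / (R / 2) ^ n) :=
          mul_le_mul_of_nonneg_left h1 (by positivity)
      _ = 2 * M * (2 / R) ^ n := by
          rw [div_pow, div_pow]
          field_simp
  have ha0 : a 0 = 0 := by
    simp only [ha, iteratedDeriv_zero, h0, mul_zero]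
  refine ⟨a 1, a 2, fun x hx => ?_⟩
  have hser : HasSum (fun n : ℕ => a n * (x : ℂ) ^ n) (h (x : ℂ)) := by
    have hmem : (x : ℂ) ∈ ball (0 : ℂ) R := by
      rw [mem_ball_zero_iff, Complex.norm_real, Real.norm_eq_abs]
      linarith
    have h1 := Complex.hasSum_taylorSeries_on_ball hd hmem
    have h2 : (fun n : ℕ => a n * (x : ℂ) ^ n) =
        fun n : ℕ => ((n.factorial : ℂ))⁻¹ • ((x : ℂ) - 0) ^ n • iteratedDeriv n h 0 := by
      funext n
      simp only [ha]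
      rw [smul_eq_mul, smul_eq_mul, sub_zero]
      ring
    rw [h2]
    exact h1
  have e6 := (hasSum_nat_add_iff' 3).2 hser
  have e7 : ∑ n ∈ Finset.range 3, a n * (x : ℂ) ^ n = a 1 * x + a 2 * x ^ 2 := by
    rw [Finset.sum_range_succ, Finset.sum_range_succ, Finset.sum_range_one, ha0]
    ring
  rw [e7] at e6
  set q : ℝ := 2 * X / R with hq
  have hq0 : 0 < q := by positivity
  have hq1 : q ≤ 1 / 2 := by
    rw [hq, div_le_iff₀ hR]
    linarith
  have hgeo : HasSum (fun n : ℕ => 2 * M * q ^ 3 * q ^ n) (2 * M * q ^ 3 * (1 - q)⁻¹) :=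
    (hasSum_geometric_of_lt_one hq0.le (by linarith)).mul_left _
  have hterm : ∀ n : ℕ, ‖a (n + 3) * (x : ℂ) ^ (n + 3)‖ ≤ 2 * M * q ^ 3 * q ^ n := by
    intro n
    rw [norm_mul, norm_pow, Complex.norm_real, Real.norm_eq_abs]
    have j2 := hcoef (n + 3)
    have j3 : |x| ^ (n + 3) ≤ X ^ (n + 3) := pow_le_pow_left₀ (abs_nonneg _) hx _
    calc ‖a (n + 3)‖ * |x| ^ (n + 3) ≤ (2 * M * (2 / R) ^ (n + 3)) * X ^ (n + 3) :=
          mul_le_mul j2 j3 (by positivity) (by positivity)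
      _ = 2 * M * (2 / R * X) ^ (n + 3) := by rw [mul_pow]; ring
      _ = 2 * M * q ^ 3 * q ^ n := by
          have j4 : 2 / R * X = q := by rw [hq]; ring
          rw [j4, pow_add]
          ring
  have h8 : ‖h (x : ℂ) - (a 1 * x + a 2 * x ^ 2)‖ ≤ 2 * M * q ^ 3 * (1 - q)⁻¹ := by
    rw [← e6.tsum_eq]
    exact tsum_of_norm_bounded hgeo hterm
  have h9 : (1 - q)⁻¹ ≤ 2 := by
    rw [inv_le_comm₀ (by linarith) (by norm_num)]
    linarith
  calc ‖h (x : ℂ) - (a 1 * x + a 2 * x ^ 2)‖ ≤ 2 * M * q ^ 3 * (1 - q)⁻¹ := h8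
    _ ≤ 2 * M * q ^ 3 * 2 := mul_le_mul_of_nonneg_left h9 (by positivity)
    _ = 4 * M * q ^ 3 := by ring

/-- the modulus of a product of linear factors -/
noncomputable def pn (s : Multiset ℂ) (z : ℂ) : ℝ := (s.map fun a => ‖z - a‖).prod

theorem pn_zero (z : ℂ) : pn 0 z = 1 := by simp [pn]

theorem pn_cons (a : ℂ) (s : Multiset ℂ) (z : ℂ) : pn (a ::ₘ s) z = ‖z - a‖ * pn s z := by
  simp [pn]

theorem pn_nonneg (s : Multiset ℂ) (z : ℂ) : 0 ≤ pn s z := by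
  induction s using Multiset.induction_on with
  | empty => rw [pn_zero]; exact zero_le_one
  | cons a s ih => rw [pn_cons]; positivity

theorem norm_eval (s : Multiset ℂ) (z : ℂ) :
    ‖((s.map fun a => Polynomial.X - Polynomial.C a).prod).eval z‖ = pn s z := by
  induction s using Multiset.induction_on with
  | empty => simp [pn_zero]
  | cons a s ih =>
    rw [Multiset.map_cons, Multiset.prod_cons, Polynomial.eval_mul, norm_mul, ih, pn_cons]
    simp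

theorem pn_low (s : Multiset ℂ) (z : ℂ) (R : ℝ) (hR : 0 ≤ R) (hz : ‖z‖ = 2 * R)
    (hs : ∀ a ∈ s, ‖a‖ ≤ R) : R ^ s.card ≤ pn s z := by
  induction s using Multiset.induction_on with
  | empty => simp [pn_zero]
  | cons a s ih =>
    rw [pn_cons, Multiset.card_cons, pow_succ, mul_comm]
    have h1 : R ≤ ‖z - a‖ := by
      have := norm_sub_norm_le z a
      have h2 := hs a (Multiset.mem_cons_self a s)
      linarith
    exact mul_le_mul h1 (ih fun b hb => hs b (Multiset.mem_cons_of_mem hb)) (by positivity)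
      (norm_nonneg _)

theorem pn_up (s : Multiset ℂ) (R : ℝ) (hR : 0 ≤ R) (hs : ∀ a ∈ s, ‖a‖ ≤ R) :
    pn s 0 ≤ R ^ s.card := by
  induction s using Multiset.induction_on with
  | empty => simp [pn_zero]
  | cons a s ih =>
    rw [pn_cons, Multiset.card_cons, pow_succ, mul_comm (R ^ _), zero_sub, norm_neg]
    exact mul_le_mul (hs a (Multiset.mem_cons_self a s))
      (ih fun b hb => hs b (Multiset.mem_cons_of_mem hb)) (pn_nonneg _ _) hR

/-- one factor -/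
theorem one_factor (t d L : ℝ) (ht : 0 < t) (hd : 0 < d) (hL : 1 + 2 * t / d ≤ L) (a : ℂ)
    (h1 : d ≤ ‖((-t : ℝ) : ℂ) - a‖) (h3 : d ≤ ‖((3 * t : ℝ) : ℂ) - a‖) :
    ‖(t : ℂ) - a‖ ^ 3 * ‖((5 * t : ℝ) : ℂ) - a‖ ≤
      L ^ 4 * (‖((-t : ℝ) : ℂ) - a‖ * ‖((3 * t : ℝ) : ℂ) - a‖ ^ 3) := by
  have key : ∀ u v : ℝ, |u - v| = 2 * t → d ≤ ‖(v : ℂ) - a‖ → ‖(u : ℂ) - a‖ ≤ L * ‖(v : ℂ) - a‖ := by
    intro u v huv hv
    have h4 : ‖(u : ℂ) - a‖ ≤ 2 * t + ‖(v : ℂ) - a‖ := by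
      have h5 := norm_add_le ((u : ℂ) - v) ((v : ℂ) - a)
      have h6 : (u : ℂ) - v + ((v : ℂ) - a) = u - a := by ring
      have h7 : ‖(u : ℂ) - v‖ = 2 * t := by
        rw [← Complex.ofReal_sub, Complex.norm_real, Real.norm_eq_abs, huv]
      rwa [h6, h7] at h5
    have h8 : 2 * t ≤ 2 * t / d * ‖(v : ℂ) - a‖ := by
      rw [div_mul_eq_mul_div, le_div_iff₀ hd]
      exact mul_le_mul_of_nonneg_left hv (by positivity)
    calc ‖(u : ℂ) - a‖ ≤ 2 * t + ‖(v : ℂ) - a‖ := h4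
      _ ≤ (1 + 2 * t / d) * ‖(v : ℂ) - a‖ := by linarith
      _ ≤ L * ‖(v : ℂ) - a‖ := mul_le_mul_of_nonneg_right hL (norm_nonneg _)
  have k1 := key t (-t) (by rw [sub_neg_eq_add, ← two_mul, abs_of_pos (by positivity)]) h1
  have k2 := key t (3 * t) (by
    have : t - 3 * t = -(2 * t) := by ring
    rw [this, abs_neg, abs_of_pos (by positivity)]) h3
  have k3 := key (5 * t) (3 * t) (by
    have : 5 * t - 3 * t = 2 * t := by ring
    rw [this, abs_of_pos (by positivity)]) h3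
  have hL0 : 0 ≤ L := le_trans (by positivity) hL
  calc ‖(t : ℂ) - a‖ ^ 3 * ‖((5 * t : ℝ) : ℂ) - a‖
      = ‖(t : ℂ) - a‖ * ‖(t : ℂ) - a‖ ^ 2 * ‖((5 * t : ℝ) : ℂ) - a‖ := by ring
    _ ≤ (L * ‖((-t : ℝ) : ℂ) - a‖) * (L * ‖((3 * t : ℝ) : ℂ) - a‖) ^ 2 *
        (L * ‖((3 * t : ℝ) : ℂ) - a‖) := by
        gcongr
    _ = L ^ 4 * (‖((-t : ℝ) : ℂ) - a‖ * ‖((3 * t : ℝ) : ℂ) - a‖ ^ 3) := by ring

theorem pn_four (s : Multiset ℂ) (t d L : ℝ) (ht : 0 < t) (hd : 0 < d) (hL : 1 + 2 * t / d ≤ L)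
    (hs : ∀ a ∈ s, d ≤ ‖((-t : ℝ) : ℂ) - a‖ ∧ d ≤ ‖((3 * t : ℝ) : ℂ) - a‖) :
    pn s t ^ 3 * pn s ((5 * t : ℝ) : ℂ) ≤
      (L ^ 4) ^ s.card * (pn s ((-t : ℝ) : ℂ) * pn s ((3 * t : ℝ) : ℂ) ^ 3) := by
  induction s using Multiset.induction_on with
  | empty => simp [pn_zero]
  | cons a s ih =>
    have h1 := ih fun b hb => hs b (Multiset.mem_cons_of_mem hb)
    have h2 := hs a (Multiset.mem_cons_self a s)
    have h3 := one_factor t d L ht hd hL a h2.1 h2.2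
    rw [pn_cons, pn_cons, pn_cons, pn_cons, Multiset.card_cons, pow_succ]
    calc (‖(t : ℂ) - a‖ * pn s t) ^ 3 * (‖((5 * t : ℝ) : ℂ) - a‖ * pn s ((5 * t : ℝ) : ℂ))
        = (‖(t : ℂ) - a‖ ^ 3 * ‖((5 * t : ℝ) : ℂ) - a‖) * (pn s t ^ 3 * pn s ((5 * t : ℝ) : ℂ)) := by
          ring
      _ ≤ (L ^ 4 * (‖((-t : ℝ) : ℂ) - a‖ * ‖((3 * t : ℝ) : ℂ) - a‖ ^ 3)) *
          ((L ^ 4) ^ s.card * (pn s ((-t : ℝ) : ℂ) * pn s ((3 * t : ℝ) : ℂ) ^ 3)) := by
          refine mul_le_mul h3 h1 ?_ (by positivity)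
          have := pn_nonneg s t
          have := pn_nonneg s ((5 * t : ℝ) : ℂ)
          positivity
      _ = _ := by ring

/-- a good point of the grid -/
theorem grid (s : Finset ℂ) (k : ℕ) (hk : s.card < k) (X : ℝ) (hX : 0 < X) :
    ∃ t : ℝ, X / 10 ≤ t ∧ t ≤ X / 5 ∧ ∀ a ∈ s, X / (40 * k) ≤ ‖((-t : ℝ) : ℂ) - a‖ ∧
      X / (40 * k) ≤ ‖((3 * t : ℝ) : ℂ) - a‖ := by
  classical
  have hk0 : (0 : ℝ) < k := by
    have : 0 < k := by omega
    exact_mod_cast this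
  set T : ℕ → ℝ := fun i => X / 10 + i * (X / (20 * k)) with hT
  by_contra hcon
  push Not at hcon
  have hbad : ∀ i : Fin (2 * k), ∃ p : s × Bool,
      ‖(((if p.2 then -1 else 3) * T i : ℝ) : ℂ) - p.1‖ < X / (40 * k) := by
    intro i
    have hi : ((i : ℕ) : ℝ) ≤ 2 * k := by
      have := i.2
      exact_mod_cast this.le
    have h1 : X / 10 ≤ T i := by
      simp only [hT]
      have : 0 ≤ ((i : ℕ) : ℝ) * (X / (20 * k)) := by positivity
      linarith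
    have h2 : T i ≤ X / 5 := by
      simp only [hT]
      have h3 : ((i : ℕ) : ℝ) * (X / (20 * k)) ≤ 2 * k * (X / (20 * k)) :=
        mul_le_mul_of_nonneg_right hi (by positivity)
      have h4 : 2 * (k : ℝ) * (X / (20 * k)) = X / 10 := by field_simp; norm_num
      linarith
    obtain ⟨a, ha, h3⟩ := hcon (T i) h1 h2
    by_cases h4 : X / (40 * k) ≤ ‖((-(T i) : ℝ) : ℂ) - a‖
    · refine ⟨(⟨a, ha⟩, false), ?_⟩
      simpa using h3 h4
    · refine ⟨(⟨a, ha⟩, true), ?_⟩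
      push Not at h4
      simpa using h4
  choose p hp using hbad
  have hcard : Fintype.card (s × Bool) < Fintype.card (Fin (2 * k)) := by
    rw [Fintype.card_prod, Fintype.card_coe, Fintype.card_bool, Fintype.card_fin]
    omega
  obtain ⟨i, j, hij, hpij⟩ := Fintype.exists_ne_map_eq_of_card_lt p hcard
  have h1 := hp i
  have h2 := hp j
  rw [← hpij] at h2
  set σ : ℝ := if (p i).2 then -1 else 3 with hσ
  have hσ1 : 1 ≤ |σ| := by
    rw [hσ]
    split_ifs <;> norm_num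
  have h3 : ‖((σ * T i : ℝ) : ℂ) - ((σ * T j : ℝ) : ℂ)‖ < X / (20 * k) := by
    have h4 := norm_sub_le (((σ * T i : ℝ) : ℂ) - (p i).1) (((σ * T j : ℝ) : ℂ) - (p i).1)
    have h5 : ((σ * T i : ℝ) : ℂ) - (p i).1 - (((σ * T j : ℝ) : ℂ) - (p i).1) =
      ((σ * T i : ℝ) : ℂ) - ((σ * T j : ℝ) : ℂ) := by ring
    rw [h5] at h4
    have h6 : X / (40 * k) + X / (40 * k) = X / (20 * k) := by field_simp; norm_num
    linarith
  rw [← Complex.ofReal_sub, Complex.norm_real, Real.norm_eq_abs, ← mul_sub, abs_mul] at h3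
  have h4 : T i - T j = (((i : ℕ) : ℤ) - ((j : ℕ) : ℤ) : ℤ) * (X / (20 * k)) := by
    simp only [hT]
    push_cast
    ring
  have h5 : (1 : ℝ) ≤ |((((i : ℕ) : ℤ) - ((j : ℕ) : ℤ) : ℤ) : ℝ)| := by
    have h6 : ((i : ℕ) : ℤ) - ((j : ℕ) : ℤ) ≠ 0 := by
      intro h7
      apply hij
      apply Fin.ext
      omega
    exact_mod_cast Int.one_le_abs h6
  rw [h4, abs_mul, abs_of_pos (show 0 < X / (20 * k) by positivity)] at h3
  have h6 : X / (20 * k) ≤ |((((i : ℕ) : ℤ) - ((j : ℕ) : ℤ) : ℤ) : ℝ)| * (X / (20 * k)) := by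
    have : 0 < X / (20 * k) := by positivity
    nlinarith
  have h7 : |((((i : ℕ) : ℤ) - ((j : ℕ) : ℤ) : ℤ) : ℝ)| * (X / (20 * k)) ≤
      |σ| * (|((((i : ℕ) : ℤ) - ((j : ℕ) : ℤ) : ℤ) : ℝ)| * (X / (20 * k))) :=
    le_mul_of_one_le_left (by positivity) hσ1
  linarith

open Polynomial in
theorem clk : Pool.Agent.Y554.NE.S_CLK := by
  classical
  intro k C c hC hc
  rcases Nat.eq_zero_or_pos k with hk | hk
  · subst hk
    exact ⟨1, 1, le_rfl, le_rfl, fun _ _ _ _ => Nat.zero_le _⟩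
  have hkR : (1 : ℝ) ≤ k := by exact_mod_cast hk
  -- the constants
  set L : ℝ := 1 + 16 * k with hL
  have hL1 : 1 ≤ L := by rw [hL]; linarith
  have hL4 : 1 ≤ L ^ 4 := one_le_pow₀ hL1
  set Z : ℝ := 16 * C * (L ^ 4) ^ k with hZ
  have hZ0 : 0 < Z := by positivity
  set X : ℝ := max 10 (10 * (1 + Z) / c) with hX
  have hX10 : 10 ≤ X := le_max_left _ _
  have hX0 : 0 < X := by linarith
  have hX1 : 1 ≤ X := by linarith
  have hXc : 1 + Z ≤ c * (X / 10) := by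
    have h1 : 10 * (1 + Z) / c ≤ X := le_max_right _ _
    rw [div_le_iff₀ hc] at h1
    linarith
  set B : ℝ := 2560 * C * X ^ 3 with hB
  have hX3 : 1 ≤ X ^ 3 := one_le_pow₀ hX1
  have hBX : 2560 * X ≤ B := by
    have h1 : X ≤ X ^ 3 := by
      have : X ^ 1 ≤ X ^ 3 := pow_le_pow_right₀ hX1 (by norm_num)
      rwa [pow_one] at this
    rw [hB]
    nlinarith
  have hB1 : 1 ≤ B := by linarith
  have hB0 : 0 < B := by linarith
  set R : ℝ := B ^ 3 with hR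
  have hR1 : 1 ≤ R := one_le_pow₀ hB1
  have hR0 : 0 < R := by linarith
  have hXR : 4 * X ≤ R := by
    have h1 : B ≤ B ^ 3 := by
      have : B ^ 1 ≤ B ^ 3 := pow_le_pow_right₀ hB1 (by norm_num)
      rwa [pow_one] at this
    linarith
  refine ⟨X, R, hX1, hR1, ?_⟩
  intro f hgrow hpos hneg
  by_contra hcon
  push Not at hcon
  set S : Multiset ℂ := f.roots.filter (fun w => ‖w‖ ≤ R) with hS
  have hSR : ∀ a ∈ S, ‖a‖ ≤ R := fun a ha => (Multiset.mem_filter.1 ha).2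
  have hf0' := hpos 0 le_rfl hX0.le
  rw [Complex.ofReal_zero] at hf0'
  have hfne : f ≠ 0 := by
    rintro rfl
    rw [eval_zero, norm_zero] at hf0'
    linarith [hf0'.1]
  obtain ⟨g, hg⟩ := (Multiset.prod_X_sub_C_dvd_iff_le_roots hfne S).2 (Multiset.filter_le _ _)
  set P : ℂ[X] := (S.map fun a => Polynomial.X - Polynomial.C a).prod with hP
  have hPg : P * g ≠ 0 := by rw [← hg]; exact hfne
  have hgne : g ≠ 0 := right_ne_zero_of_mul hPg
  have hfPg : ∀ z, ‖f.eval z‖ = pn S z * ‖g.eval z‖ := by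
    intro z
    rw [hg, eval_mul, norm_mul, ← norm_eval]
  have hgz : ∀ w ∈ ball (0 : ℂ) R, g.eval w ≠ 0 := by
    intro w hw h0
    have hwR : ‖w‖ ≤ R := (mem_ball_zero_iff.1 hw).le
    have h1 : f.roots = S + g.roots := by
      conv_lhs => rw [hg]
      rw [roots_mul hPg, hP, roots_multiset_prod_X_sub_C]
    have h2 := congrArg (Multiset.count w) h1
    rw [Multiset.count_add, hS, Multiset.count_filter_of_pos (p := fun w : ℂ => ‖w‖ ≤ R) hwR] at h2
    have h3 : 0 < Multiset.count w g.roots := by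
      rw [Multiset.count_pos, mem_roots hgne]
      exact h0
    omega
  -- the growth of `g`
  have hgd : Differentiable ℂ (fun z => g.eval z) := g.differentiable
  have hRm : 0 < R ^ S.card := by positivity
  set K : ℝ := C * Real.exp (C * (2 * R) ^ (8 / 3 : ℝ)) with hK
  have hgK : ∀ z ∈ closedBall (0 : ℂ) (2 * R), ‖g.eval z‖ ≤ K / R ^ S.card := by
    intro z hz
    have h2R : (2 * R) ≠ 0 := by positivity
    refine Complex.norm_le_of_forall_mem_frontier_norm_le (U := ball (0 : ℂ) (2 * R))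
      isBounded_ball hgd.diffContOnCl (fun w hw => ?_) (by rwa [closure_ball _ h2R])
    rw [frontier_ball _ h2R, mem_sphere_zero_iff_norm] at hw
    have h1 := hgrow w
    rw [hfPg, hw] at h1
    rw [le_div_iff₀ hRm, mul_comm]
    exact (mul_le_mul_of_nonneg_right (pn_low S w R hR0.le hw hSR) (norm_nonneg _)).trans h1
  obtain ⟨h, hd, h0, hexp⟩ := exists_log (fun z => g.eval z) hgd R hR0 hgz
  have hnorm : ∀ w ∈ ball (0 : ℂ) R, ‖g.eval w‖ = ‖g.eval 0‖ * Real.exp (h w).re := by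
    intro w hw
    rw [hexp w hw, norm_mul, Complex.norm_exp]
  have hf0 := hf0'
  rw [hfPg] at hf0
  have hP0 : pn S 0 ≤ R ^ S.card := pn_up S R hR0.le hSR
  have hg0 : 1 / 2 ≤ R ^ S.card * ‖g.eval 0‖ :=
    hf0.1.trans (mul_le_mul_of_nonneg_right hP0 (norm_nonneg _))
  set M : ℝ := 10 * C * B ^ 8 with hM
  have hB8 : 1 ≤ B ^ 8 := one_le_pow₀ hB1
  have hM0 : 0 < M := by positivity
  have hR83 : (2 * R) ^ (8 / 3 : ℝ) ≤ 8 * B ^ 8 := by
    rw [Real.mul_rpow (by norm_num) hR0.le]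
    have h1 : R ^ (8 / 3 : ℝ) = B ^ 8 := by
      rw [hR, ← Real.rpow_natCast B 3, ← Real.rpow_mul hB0.le, ← Real.rpow_natCast B 8]
      norm_num
    have h2 : (2 : ℝ) ^ (8 / 3 : ℝ) ≤ 8 := by
      have h3 : (2 : ℝ) ^ (8 / 3 : ℝ) ≤ 2 ^ (3 : ℝ) :=
        Real.rpow_le_rpow_of_exponent_le (by norm_num) (by norm_num)
      refine h3.trans (le_of_eq ?_)
      norm_num
    rw [h1]
    exact mul_le_mul_of_nonneg_right h2 (by positivity)
  have hre : ∀ z ∈ ball (0 : ℂ) R, (h z).re ≤ M := by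
    intro z hz
    have hz2 : z ∈ closedBall (0 : ℂ) (2 * R) :=
      mem_closedBall_zero_iff.2 (by have := mem_ball_zero_iff.1 hz; linarith)
    have h1 := hgK z hz2
    rw [hnorm z hz, le_div_iff₀ hRm] at h1
    have h2 : 1 / 2 * Real.exp (h z).re ≤ K := by
      have h3 := mul_le_mul_of_nonneg_right hg0 (Real.exp_pos (h z).re).le
      linarith
    have h4 : K ≤ C * Real.exp (C * (8 * B ^ 8)) := by
      rw [hK]
      gcongr
    have h5 : Real.exp (h z).re ≤ Real.exp M := by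
      have h6 : 2 * C ≤ Real.exp (2 * C) := by
        have := Real.add_one_le_exp (2 * C)
        linarith
      calc Real.exp (h z).re ≤ 2 * C * Real.exp (C * (8 * B ^ 8)) := by linarith
        _ ≤ Real.exp (2 * C) * Real.exp (C * (8 * B ^ 8)) :=
            mul_le_mul_of_nonneg_right h6 (Real.exp_pos _).le
        _ = Real.exp (2 * C + C * (8 * B ^ 8)) := (Real.exp_add _ _).symm
        _ ≤ Real.exp M := by
            apply Real.exp_le_exp.2
            rw [hM]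
            nlinarith
    exact Real.exp_le_exp.1 h5
  obtain ⟨a, b, hq⟩ := quad h R M X hR0 hM0 hX0 hXR hd h0 hre
  have hE1 : 8 * (4 * M * (2 * X / R) ^ 3) = 1 := by
    rw [hM, hR, div_pow, ← pow_mul]
    have : B ^ (3 * 3) = B ^ 8 * B := by ring
    rw [this]
    have hB8' : B ^ 8 ≠ 0 := by positivity
    have h1 : 8 * (4 * (10 * C * B ^ 8) * ((2 * X) ^ 3 / (B ^ 8 * B))) = 2560 * C * X ^ 3 / B := by
      field_simp
      ring
    rw [h1, ← hB, div_self hB0.ne']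
  -- the good point
  obtain ⟨t, ht1, ht2, ht⟩ := grid S.toFinset k
    (lt_of_le_of_lt (Multiset.toFinset_card_le S) hcon) X hX0
  have ht0 : 0 < t := by linarith
  have hd0 : 0 < X / (40 * k) := by positivity
  have hLt : 1 + 2 * t / (X / (40 * k)) ≤ L := by
    rw [hL]
    have h1 : 2 * t / (X / (40 * k)) ≤ 16 * k := by
      rw [div_le_iff₀ hd0]
      have h2 : 16 * (k : ℝ) * (X / (40 * k)) = 2 * (X / 5) := by field_simp; norm_num
      rw [h2]
      linarith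
    linarith
  have h4 := pn_four S t (X / (40 * k)) L ht0 hd0 hLt fun a ha => ht a (Multiset.mem_toFinset.2 ha)
  have hmem : ∀ u : ℝ, |u| ≤ X → (u : ℂ) ∈ ball (0 : ℂ) R := by
    intro u hu
    rw [mem_ball_zero_iff, Complex.norm_real, Real.norm_eq_abs]
    linarith
  have m1 : |t| ≤ X := by rw [abs_of_pos ht0]; linarith
  have m2 : |-t| ≤ X := by rw [abs_neg]; exact m1
  have m3 : |3 * t| ≤ X := by rw [abs_of_pos (by positivity)]; linarith
  have m5 : |5 * t| ≤ X := by rw [abs_of_pos (by positivity)]; linarith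
  -- the logarithms
  have hlog : 3 * (h (t : ℂ)).re + (h ((5 * t : ℝ) : ℂ)).re ≤
      1 + ((h ((-t : ℝ) : ℂ)).re + 3 * (h ((3 * t : ℝ) : ℂ)).re) := by
    set δ : ℝ := 4 * M * (2 * X / R) ^ 3 with hδ
    have q1 := (abs_le.1 ((Complex.abs_re_le_norm _).trans (hq t m1))).2
    have q2 := (abs_le.1 ((Complex.abs_re_le_norm _).trans (hq (-t) m2))).1
    have q3 := (abs_le.1 ((Complex.abs_re_le_norm _).trans (hq (3 * t) m3))).1
    have q5 := (abs_le.1 ((Complex.abs_re_le_norm _).trans (hq (5 * t) m5))).2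
    have r : ∀ u : ℝ, (h (u : ℂ) - (a * u + b * u ^ 2)).re = (h (u : ℂ)).re - (a.re * u + b.re * u ^ 2) := by
      intro u
      have : (a * u + b * u ^ 2 : ℂ) = ((u : ℝ) : ℂ) * a + ((u ^ 2 : ℝ) : ℂ) * b := by
        push_cast; ring
      rw [this, Complex.sub_re, Complex.add_re, Complex.re_ofReal_mul, Complex.re_ofReal_mul]
      ring
    rw [r] at q1 q2 q3 q5
    nlinarith
  have v4 : pn S t ^ 3 * pn S ((5 * t : ℝ) : ℂ) * (‖g.eval (t : ℂ)‖ ^ 3 * ‖g.eval ((5 * t : ℝ) : ℂ)‖) ≤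
      (L ^ 4) ^ S.card * (pn S ((-t : ℝ) : ℂ) * pn S ((3 * t : ℝ) : ℂ) ^ 3) *
      (Real.exp 1 * (‖g.eval ((-t : ℝ) : ℂ)‖ * ‖g.eval ((3 * t : ℝ) : ℂ)‖ ^ 3)) := by
    refine mul_le_mul h4 ?_ (by positivity) ?_
    · rw [hnorm _ (hmem t m1), hnorm _ (hmem (5 * t) m5), hnorm _ (hmem (-t) m2),
        hnorm _ (hmem (3 * t) m3)]
      have h5 : Real.exp (h (t : ℂ)).re ^ 3 * Real.exp (h ((5 * t : ℝ) : ℂ)).re ≤
          Real.exp 1 * (Real.exp (h ((-t : ℝ) : ℂ)).re * Real.exp (h ((3 * t : ℝ) : ℂ)).re ^ 3) := by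
        rw [← Real.exp_nat_mul, ← Real.exp_nat_mul, ← Real.exp_add, ← Real.exp_add, ← Real.exp_add]
        apply Real.exp_le_exp.2
        simp only [Nat.cast_ofNat]
        linarith
      calc (‖g.eval 0‖ * Real.exp (h (t : ℂ)).re) ^ 3 * (‖g.eval 0‖ * Real.exp (h ((5 * t : ℝ) : ℂ)).re)
          = ‖g.eval 0‖ ^ 4 * (Real.exp (h (t : ℂ)).re ^ 3 * Real.exp (h ((5 * t : ℝ) : ℂ)).re) := by
            ring
        _ ≤ ‖g.eval 0‖ ^ 4 * (Real.exp 1 * (Real.exp (h ((-t : ℝ) : ℂ)).re *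
            Real.exp (h ((3 * t : ℝ) : ℂ)).re ^ 3)) := mul_le_mul_of_nonneg_left h5 (by positivity)
        _ = _ := by ring
    · have := pn_nonneg S ((-t : ℝ) : ℂ)
      have := pn_nonneg S ((3 * t : ℝ) : ℂ)
      positivity
  have v5 : ‖f.eval (t : ℂ)‖ ^ 3 * ‖f.eval ((5 * t : ℝ) : ℂ)‖ ≤
      (L ^ 4) ^ S.card * Real.exp 1 * (‖f.eval ((-t : ℝ) : ℂ)‖ * ‖f.eval ((3 * t : ℝ) : ℂ)‖ ^ 3) := by
    rw [hfPg, hfPg, hfPg, hfPg]
    refine le_trans (le_of_eq ?_) (v4.trans (le_of_eq ?_))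
    · ring
    · ring
  have b1 := (hpos t ht0.le (by linarith)).1
  have b5 := (hpos (5 * t) (by positivity) (by linarith)).1
  have b3 := (hpos (3 * t) (by positivity) (by linarith)).2
  have b0 := hneg t ht0.le (by linarith)
  have v6 : 1 / 16 ≤ ‖f.eval (t : ℂ)‖ ^ 3 * ‖f.eval ((5 * t : ℝ) : ℂ)‖ := by
    have h5 : (1 / 2 : ℝ) ^ 3 * (1 / 2) ≤ ‖f.eval (t : ℂ)‖ ^ 3 * ‖f.eval ((5 * t : ℝ) : ℂ)‖ := by
      gcongr
    refine le_trans (le_of_eq ?_) h5
    norm_num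
  have ht1' : 1 ≤ t := by linarith
  have hpow : t ≤ t ^ (4 / 3 : ℝ) := by
    have := Real.rpow_le_rpow_of_exponent_le ht1' (show (1 : ℝ) ≤ 4 / 3 by norm_num)
    rwa [Real.rpow_one] at this
  have v7 : ‖f.eval ((-t : ℝ) : ℂ)‖ * ‖f.eval ((3 * t : ℝ) : ℂ)‖ ^ 3 ≤
      C * (Real.exp (-1) * Real.exp (-Z)) := by
    have h5 : ‖f.eval ((3 * t : ℝ) : ℂ)‖ ^ 3 ≤ 1 := pow_le_one₀ (norm_nonneg _) b3
    have h6 : Real.exp (-(c * t ^ (4 / 3 : ℝ))) ≤ Real.exp (-1) * Real.exp (-Z) := by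
      rw [← Real.exp_add]
      apply Real.exp_le_exp.2
      have h7 : c * (X / 10) ≤ c * t ^ (4 / 3 : ℝ) :=
        mul_le_mul_of_nonneg_left (ht1.trans hpow) hc.le
      linarith
    calc ‖f.eval ((-t : ℝ) : ℂ)‖ * ‖f.eval ((3 * t : ℝ) : ℂ)‖ ^ 3
        ≤ ‖f.eval ((-t : ℝ) : ℂ)‖ * 1 := mul_le_mul_of_nonneg_left h5 (norm_nonneg _)
      _ ≤ C * Real.exp (-(c * t ^ (4 / 3 : ℝ))) := by rw [mul_one]; exact b0
      _ ≤ C * (Real.exp (-1) * Real.exp (-Z)) := mul_le_mul_of_nonneg_left h6 (by linarith)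
  have v8 : (L ^ 4) ^ S.card ≤ (L ^ 4) ^ k := pow_le_pow_right₀ hL4 hcon.le
  have v9 : 1 / 16 ≤ (L ^ 4) ^ k * Real.exp 1 * (C * (Real.exp (-1) * Real.exp (-Z))) := by
    refine v6.trans (v5.trans ?_)
    refine mul_le_mul (mul_le_mul_of_nonneg_right v8 (Real.exp_pos _).le) v7 (by positivity)
      (by positivity)
  have v10 : (L ^ 4) ^ k * Real.exp 1 * (C * (Real.exp (-1) * Real.exp (-Z))) =
      1 / 16 * (Z * Real.exp (-Z)) := by
    have h5 : Real.exp 1 * Real.exp (-1) = 1 := by rw [← Real.exp_add]; simp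
    calc (L ^ 4) ^ k * Real.exp 1 * (C * (Real.exp (-1) * Real.exp (-Z)))
        = (L ^ 4) ^ k * C * (Real.exp 1 * Real.exp (-1)) * Real.exp (-Z) := by ring
      _ = 1 / 16 * (Z * Real.exp (-Z)) := by rw [h5, hZ]; ring
  have v11 : Z * Real.exp (-Z) < 1 := by
    have h5 := Real.add_one_le_exp Z
    rw [Real.exp_neg, ← div_eq_mul_inv, div_lt_one (Real.exp_pos _)]
    linarith
  rw [v10] at v9
  linarith

end Pool.Agent.Y932.NE.Clk
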