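import Pool.Agent.Y932.NE.Clk

/-!
# Project NE: a power law for the number of zeros close to the origin
-/

set_option autoImplicit false

namespace Pool.Agent.Y932.NE.Clp

section integrals
open MeasureTheory Set intervalIntegral

/-- the function `|s|^(-1/2)` -/
noncomputable def ph (s : ℝ) : ℝ := |s| ^ (-(1 / 2) : ℝ)

theorem ph_neg (s : ℝ) : ph (-s) = ph s := by unfold ph; rw [abs_neg]

theorem ph_int0 (b : ℝ) (hb : 0 ≤ b) : IntervalIntegrable ph volume 0 b ∧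
    ∫ s in (0 : ℝ)..b, ph s = 2 * √b := by
  have h1 : IntervalIntegrable (fun x : ℝ => x ^ (-(1 / 2) : ℝ)) volume 0 b :=
    intervalIntegrable_rpow' (by norm_num)
  have h2 : ∀ x ∈ uIoc (0 : ℝ) b, x ^ (-(1 / 2) : ℝ) = ph x := by
    intro x hx
    rw [uIoc_of_le hb] at hx
    unfold ph
    rw [abs_of_pos hx.1]
  refine ⟨h1.congr fun x hx => h2 x hx, ?_⟩
  have h3 : ∫ s in (0 : ℝ)..b, ph s = ∫ s in (0 : ℝ)..b, s ^ (-(1 / 2) : ℝ) := by
    refine integral_congr_ae (Filter.Eventually.of_forall fun x hx => (h2 x hx).symm)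
  rw [h3, integral_rpow (Or.inl (by norm_num)), Real.sqrt_eq_rpow]
  norm_num
  ring

theorem sqrt_add (x y : ℝ) (hx : 0 ≤ x) (hy : 0 ≤ y) : √(x + y) ≤ √x + √y := by
  rw [Real.sqrt_le_left (by positivity)]
  have h1 := Real.sq_sqrt hx
  have h2 := Real.sq_sqrt hy
  have h3 := Real.sqrt_nonneg x
  have h4 := Real.sqrt_nonneg y
  nlinarith [mul_nonneg h3 h4]

theorem ph_ab (a b : ℝ) (hab : a ≤ b) : IntervalIntegrable ph volume a b ∧
    ∫ s in a..b, ph s ≤ 4 * √(b - a) := by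
  have key : ∀ c : ℝ, IntervalIntegrable ph volume 0 c := by
    intro c
    rcases le_total 0 c with hc | hc
    · exact (ph_int0 c hc).1
    · have h1 := (ph_int0 (-c) (by linarith)).1
      have h2 := h1.comp_sub_left 0
      simpa [ph_neg] using h2
  have hneg : ∀ c : ℝ, c ≤ 0 → ∫ s in c..(0 : ℝ), ph s = 2 * √(-c) := by
    intro c hc
    have h1 := (ph_int0 (-c) (by linarith)).2
    have h2 := integral_comp_neg (a := c) (b := 0) ph
    simp only [ph_neg, neg_zero] at h2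
    rw [h2, h1]
  have hi : ∀ c d : ℝ, IntervalIntegrable ph volume c d := fun c d => (key c).symm.trans (key d)
  refine ⟨hi a b, ?_⟩
  have hs : ∀ x y : ℝ, x ≤ y → √x ≤ √y := fun x y h => Real.sqrt_le_sqrt h
  rcases le_total 0 a with ha | ha
  · have h1 := integral_add_adjacent_intervals (hi 0 a) (hi a b)
    rw [(ph_int0 a ha).2, (ph_int0 b (ha.trans hab)).2] at h1
    have h2 : √b ≤ √a + √(b - a) := by
      have h3 := sqrt_add a (b - a) ha (sub_nonneg.2 hab)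
      rwa [add_sub_cancel] at h3
    have h4 := Real.sqrt_nonneg (b - a)
    linarith
  · rcases le_total 0 b with hb | hb
    · have h1 := integral_add_adjacent_intervals (hi a 0) (hi 0 b)
      rw [hneg a ha, (ph_int0 b hb).2] at h1
      have h2 := hs (-a) (b - a) (by linarith)
      have h3 := hs b (b - a) (by linarith)
      linarith
    · have h1 := integral_add_adjacent_intervals (hi a b) (hi b 0)
      rw [hneg a ha, hneg b hb] at h1
      have h2 : √(-a) ≤ √(-b) + √(b - a) := by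
        have h3 := sqrt_add (-b) (b - a) (neg_nonneg.2 hb) (sub_nonneg.2 hab)
        have h5 : -b + (b - a) = -a := by ring
        rwa [h5] at h3
      have h4 := Real.sqrt_nonneg (b - a)
      linarith

/-- the weight of a root -/
noncomputable def wt (t r : ℝ) : ℝ := 2 * ph (t + r) + 6 * ph (3 * t - r)

theorem wt_int (r T : ℝ) (hT : 0 < T) : IntervalIntegrable (fun t => wt t r) volume T (2 * T) ∧
    ∫ t in T..(2 * T), wt t r ≤ 24 * √T := by
  have h1 := ph_ab (T + r) (2 * T + r) (by linarith)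
  have h3 := ph_ab (3 * T - r) (3 * (2 * T) - r) (by linarith)
  have i1 : IntervalIntegrable (fun t => ph (t + r)) volume T (2 * T) := by
    have := h1.1.comp_add_right r
    simpa using this
  have i3 : IntervalIntegrable (fun t => ph (3 * t - r)) volume T (2 * T) := by
    have h4 : IntervalIntegrable (fun t => ph (t - r)) volume (3 * T) (3 * (2 * T)) := by
      have := h3.1.comp_sub_right r
      simpa using this
    have h5 := h4.comp_mul_left (c := 3)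
    have e1 : 3 * T / 3 = T := by ring
    have e2 : 3 * (2 * T) / 3 = 2 * T := by ring
    rwa [e1, e2] at h5
  have j1 : ∫ t in T..(2 * T), ph (t + r) ≤ 4 * √T := by
    rw [integral_comp_add_right]
    refine h1.2.trans (le_of_eq ?_)
    congr 2
    ring
  have j3 : ∫ t in T..(2 * T), ph (3 * t - r) ≤ 8 / 3 * √T := by
    rw [integral_comp_mul_sub ph (by norm_num : (3 : ℝ) ≠ 0) r, smul_eq_mul]
    have h4 : 3 * (2 * T) - r - (3 * T - r) = 3 * T := by ring
    rw [h4] at h3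
    have h5 : √(3 * T) ≤ 2 * √T := by
      rw [Real.sqrt_mul (by norm_num)]
      refine mul_le_mul_of_nonneg_right ?_ (Real.sqrt_nonneg _)
      rw [Real.sqrt_le_left (by norm_num)]
      norm_num
    have h6 := h3.2
    have h7 : (3 : ℝ)⁻¹ * ∫ x in (3 * T - r)..(3 * (2 * T) - r), ph x ≤ (3 : ℝ)⁻¹ * (4 * (2 * √T)) := by
      refine mul_le_mul_of_nonneg_left (h6.trans ?_) (by norm_num)
      linarith
    refine h7.trans (le_of_eq ?_)
    ring
  have k1 := i1.const_mul 2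
  have k3 := i3.const_mul 6
  refine ⟨k1.add k3, ?_⟩
  have e : ∫ t in T..(2 * T), wt t r =
      2 * (∫ t in T..(2 * T), ph (t + r)) + 6 * ∫ t in T..(2 * T), ph (3 * t - r) := by
    unfold wt
    rw [integral_add k1 k3, intervalIntegral.integral_const_mul, intervalIntegral.integral_const_mul]
  rw [e]
  linarith

/-- the sum of the weights -/
noncomputable def sw (s : Multiset ℂ) (t : ℝ) : ℝ := (s.map fun a => wt t a.re).sum

theorem sw_int (s : Multiset ℂ) (T : ℝ) (hT : 0 < T) :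
    IntervalIntegrable (sw s) volume T (2 * T) ∧ ∫ t in T..(2 * T), sw s t ≤ 24 * √T * s.card := by
  induction s using Multiset.induction_on with
  | empty =>
    have e : sw 0 = fun _ => 0 := by ext t; simp [sw]
    rw [e]
    simp
  | cons a s ih =>
    have e : sw (a ::ₘ s) = fun t => wt t a.re + sw s t := by ext t; simp [sw]
    have h1 := wt_int a.re T hT
    rw [e]
    refine ⟨h1.1.add ih.1, ?_⟩
    rw [integral_add h1.1 ih.1, Multiset.card_cons]
    push_cast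
    linarith [h1.2, ih.2]

/-- a good point -/
theorem good (s : Multiset ℂ) (T : ℝ) (hT : 0 < T) : ∃ t, T ≤ t ∧ t ≤ 2 * T ∧
    (∀ a ∈ s, t + a.re ≠ 0 ∧ 3 * t - a.re ≠ 0) ∧ sw s t * √T ≤ 24 * s.card := by
  classical
  obtain ⟨h1, h2⟩ := sw_int s T hT
  rw [intervalIntegrable_iff_integrableOn_Ioc_of_le (by linarith)] at h1
  rw [integral_of_le (by linarith)] at h2
  set N : Set ℝ := (s.toFinset.image fun a => -a.re) ∪ (s.toFinset.image fun a => a.re / 3) ∪
    (Ioc T (2 * T))ᶜ with hN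
  set μ := volume.restrict (Ioc T (2 * T)) with hμ
  have hμ0 : μ ≠ 0 := by
    rw [hμ, Ne, Measure.restrict_eq_zero, Real.volume_Ioc]
    simp only [ENNReal.ofReal_eq_zero, not_le]
    linarith
  have hfin : IsFiniteMeasure μ := by
    rw [hμ]
    exact ⟨by rw [Measure.restrict_apply_univ, Real.volume_Ioc]; exact ENNReal.ofReal_lt_top⟩
  have hN0 : μ N = 0 := by
    rw [hN, measure_union_null_iff, measure_union_null_iff]
    refine ⟨⟨?_, ?_⟩, ?_⟩
    · exact (Finset.measure_zero _ _)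
    · exact (Finset.measure_zero _ _)
    · rw [hμ, Measure.restrict_apply measurableSet_Ioc.compl]
      simp
  obtain ⟨t, htN, ht⟩ := exists_notMem_null_le_average hμ0 h1 hN0
  rw [hN] at htN
  simp only [mem_union, not_or, Finset.coe_image, mem_image, Finset.mem_coe, Multiset.mem_toFinset,
    not_exists, not_and, mem_compl_iff, not_not] at htN
  obtain ⟨⟨n1, n3⟩, htI⟩ := htN
  refine ⟨t, htI.1.le, htI.2, fun a ha => ⟨fun h => n1 a ha (by linarith), fun h => n3 a ha (by linarith)⟩, ?_⟩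
  have hav : ⨍ x, sw s x ∂μ = T⁻¹ * ∫ x in Ioc T (2 * T), sw s x := by
    rw [average_eq, hμ, measureReal_restrict_apply_univ, Real.volume_real_Ioc_of_le (by linarith),
      smul_eq_mul]
    congr 2
    ring
  rw [hav] at ht
  have hs : √T * √T = T := Real.mul_self_sqrt hT.le
  have h3 : sw s t ≤ T⁻¹ * (24 * √T * s.card) :=
    ht.trans (mul_le_mul_of_nonneg_left h2 (by positivity))
  calc sw s t * √T ≤ T⁻¹ * (24 * √T * s.card) * √T :=
        mul_le_mul_of_nonneg_right h3 (Real.sqrt_nonneg _)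
    _ = T⁻¹ * (√T * √T) * (24 * s.card) := by ring
    _ = 24 * s.card := by rw [hs, inv_mul_cancel₀ hT.ne', one_mul]

end integrals

open Metric Set Polynomial
open Pool.Agent.Y932.NE.Clo (exists_log)
open Pool.Agent.Y932.NE.Clk (quad pn pn_zero pn_cons pn_nonneg norm_eval pn_low pn_up)

theorem ph_eq (s : ℝ) : ph s = (√|s|)⁻¹ := by
  unfold ph
  rw [Real.rpow_neg (abs_nonneg _), Real.sqrt_eq_rpow]

theorem one_add_le (x : ℝ) (hx : 0 ≤ x) : 1 + x ≤ Real.exp (2 * √x) := by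
  have h1 := Real.sq_sqrt hx
  have h2 := Real.sqrt_nonneg x
  have h3 : 1 + √x ≤ Real.exp (√x) := by
    have := Real.add_one_le_exp (√x)
    linarith
  have h4 : Real.exp (2 * √x) = Real.exp (√x) ^ 2 := by
    rw [← Real.exp_nat_mul]
    norm_num
  rw [h4]
  nlinarith [Real.exp_pos (√x)]

/-- one factor -/
theorem one_factor (t : ℝ) (ht : 0 < t) (a : ℂ) (h1 : t + a.re ≠ 0) (h3 : 3 * t - a.re ≠ 0) :
    ‖(t : ℂ) - a‖ ^ 3 * ‖((5 * t : ℝ) : ℂ) - a‖ ≤
      Real.exp (√(2 * t) * wt t a.re) * (‖((-t : ℝ) : ℂ) - a‖ * ‖((3 * t : ℝ) : ℂ) - a‖ ^ 3) := by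
  have key : ∀ u v d : ℝ, |u - v| = 2 * t → d ≠ 0 → |d| ≤ ‖(v : ℂ) - a‖ →
      ‖(u : ℂ) - a‖ ≤ Real.exp (2 * (√(2 * t) * ph d)) * ‖(v : ℂ) - a‖ := by
    intro u v d huv hd hv
    have hd0 : 0 < |d| := abs_pos.2 hd
    have h4 : ‖(u : ℂ) - a‖ ≤ 2 * t + ‖(v : ℂ) - a‖ := by
      have h5 := norm_add_le ((u : ℂ) - v) ((v : ℂ) - a)
      have h6 : (u : ℂ) - v + ((v : ℂ) - a) = u - a := by ring
      have h7 : ‖(u : ℂ) - v‖ = 2 * t := by
        rw [← Complex.ofReal_sub, Complex.norm_real, Real.norm_eq_abs, huv]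
      rwa [h6, h7] at h5
    have h8 : 2 * t ≤ 2 * t / |d| * ‖(v : ℂ) - a‖ := by
      rw [div_mul_eq_mul_div, le_div_iff₀ hd0]
      exact mul_le_mul_of_nonneg_left hv (by positivity)
    have h9 : √(2 * t / |d|) = √(2 * t) * ph d := by
      rw [Real.sqrt_div (by positivity), ph_eq, div_eq_mul_inv]
    have h10 := one_add_le (2 * t / |d|) (by positivity)
    rw [h9] at h10
    calc ‖(u : ℂ) - a‖ ≤ 2 * t + ‖(v : ℂ) - a‖ := h4
      _ ≤ (1 + 2 * t / |d|) * ‖(v : ℂ) - a‖ := by linarith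
      _ ≤ Real.exp (2 * (√(2 * t) * ph d)) * ‖(v : ℂ) - a‖ :=
          mul_le_mul_of_nonneg_right h10 (norm_nonneg _)
  have d1 : |t + a.re| ≤ ‖((-t : ℝ) : ℂ) - a‖ := by
    have := Complex.abs_re_le_norm (((-t : ℝ) : ℂ) - a)
    rw [Complex.sub_re, Complex.ofReal_re, show -t - a.re = -(t + a.re) by ring, abs_neg] at this
    exact this
  have d3 : |3 * t - a.re| ≤ ‖((3 * t : ℝ) : ℂ) - a‖ := by
    have := Complex.abs_re_le_norm (((3 * t : ℝ) : ℂ) - a)
    rw [Complex.sub_re, Complex.ofReal_re] at this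
    exact this
  have k1 := key t (-t) _ (by rw [sub_neg_eq_add, ← two_mul, abs_of_pos (by positivity)]) h1 d1
  have k2 := key t (3 * t) _ (by
    have : t - 3 * t = -(2 * t) := by ring
    rw [this, abs_neg, abs_of_pos (by positivity)]) h3 d3
  have k3 := key (5 * t) (3 * t) _ (by
    have : 5 * t - 3 * t = 2 * t := by ring
    rw [this, abs_of_pos (by positivity)]) h3 d3
  set E1 : ℝ := Real.exp (2 * (√(2 * t) * ph (t + a.re))) with hE1
  set E3 : ℝ := Real.exp (2 * (√(2 * t) * ph (3 * t - a.re))) with hE3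
  have hE1p : 0 < E1 := Real.exp_pos _
  have hE3p : 0 < E3 := Real.exp_pos _
  have hE : Real.exp (√(2 * t) * wt t a.re) = E1 * E3 ^ 3 := by
    rw [hE1, hE3, ← Real.exp_nat_mul, ← Real.exp_add]
    congr 1
    unfold wt
    push_cast
    ring
  rw [hE]
  calc ‖(t : ℂ) - a‖ ^ 3 * ‖((5 * t : ℝ) : ℂ) - a‖
      = ‖(t : ℂ) - a‖ * ‖(t : ℂ) - a‖ ^ 2 * ‖((5 * t : ℝ) : ℂ) - a‖ := by ring
    _ ≤ (E1 * ‖((-t : ℝ) : ℂ) - a‖) * (E3 * ‖((3 * t : ℝ) : ℂ) - a‖) ^ 2 *
        (E3 * ‖((3 * t : ℝ) : ℂ) - a‖) := by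
        gcongr
    _ = E1 * E3 ^ 3 * (‖((-t : ℝ) : ℂ) - a‖ * ‖((3 * t : ℝ) : ℂ) - a‖ ^ 3) := by ring

theorem pn_four (s : Multiset ℂ) (t : ℝ) (ht : 0 < t)
    (hs : ∀ a ∈ s, t + a.re ≠ 0 ∧ 3 * t - a.re ≠ 0) :
    pn s t ^ 3 * pn s ((5 * t : ℝ) : ℂ) ≤
      Real.exp (√(2 * t) * sw s t) * (pn s ((-t : ℝ) : ℂ) * pn s ((3 * t : ℝ) : ℂ) ^ 3) := by
  induction s using Multiset.induction_on with
  | empty => simp [pn_zero, sw]
  | cons a s ih =>
    have h1 := ih fun b hb => hs b (Multiset.mem_cons_of_mem hb)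
    have h2 := hs a (Multiset.mem_cons_self a s)
    have h3 := one_factor t ht a h2.1 h2.2
    have e : sw (a ::ₘ s) t = wt t a.re + sw s t := by simp [sw]
    rw [pn_cons, pn_cons, pn_cons, pn_cons, e, mul_add, Real.exp_add]
    calc (‖(t : ℂ) - a‖ * pn s t) ^ 3 * (‖((5 * t : ℝ) : ℂ) - a‖ * pn s ((5 * t : ℝ) : ℂ))
        = (‖(t : ℂ) - a‖ ^ 3 * ‖((5 * t : ℝ) : ℂ) - a‖) * (pn s t ^ 3 * pn s ((5 * t : ℝ) : ℂ)) := by
          ring
      _ ≤ (Real.exp (√(2 * t) * wt t a.re) * (‖((-t : ℝ) : ℂ) - a‖ * ‖((3 * t : ℝ) : ℂ) - a‖ ^ 3)) *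
          (Real.exp (√(2 * t) * sw s t) * (pn s ((-t : ℝ) : ℂ) * pn s ((3 * t : ℝ) : ℂ) ^ 3)) := by
          refine mul_le_mul h3 h1 ?_ (by positivity)
          have := pn_nonneg s t
          have := pn_nonneg s ((5 * t : ℝ) : ℂ)
          positivity
      _ = _ := by ring

/-- the third difference of the logarithm of the part without zeros -/
theorem setup (C R X : ℝ) (hC : 1 ≤ C) (hR1 : 1 ≤ R) (hX0 : 0 < X) (hXR : 4 * X ≤ R) (f : ℂ[X])
    (hgrow : ∀ w, ‖f.eval w‖ ≤ C * Real.exp (C * ‖w‖ ^ (8 / 3 : ℝ)))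
    (hf0' : 1 / 2 ≤ ‖f.eval 0‖) (t Q : ℝ) (ht0 : 0 < t) (ht5 : 5 * t ≤ X) (hQ : 0 ≤ Q)
    (h4 : pn (f.roots.filter (fun w => ‖w‖ ≤ R)) t ^ 3 *
        pn (f.roots.filter (fun w => ‖w‖ ≤ R)) ((5 * t : ℝ) : ℂ) ≤
      Q * (pn (f.roots.filter (fun w => ‖w‖ ≤ R)) ((-t : ℝ) : ℂ) *
        pn (f.roots.filter (fun w => ‖w‖ ≤ R)) ((3 * t : ℝ) : ℂ) ^ 3)) :
    ‖f.eval (t : ℂ)‖ ^ 3 * ‖f.eval ((5 * t : ℝ) : ℂ)‖ ≤
      Q * Real.exp (8 * (4 * (10 * C * R ^ (8 / 3 : ℝ)) * (2 * X / R) ^ 3)) *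
        (‖f.eval ((-t : ℝ) : ℂ)‖ * ‖f.eval ((3 * t : ℝ) : ℂ)‖ ^ 3) := by
  classical
  have hR0 : 0 < R := by linarith
  set S : Multiset ℂ := f.roots.filter (fun w => ‖w‖ ≤ R) with hS
  have hSR : ∀ a ∈ S, ‖a‖ ≤ R := fun a ha => (Multiset.mem_filter.1 ha).2
  have hfne : f ≠ 0 := by
    rintro rfl
    rw [eval_zero, norm_zero] at hf0'
    linarith
  obtain ⟨g, hg⟩ := (Multiset.prod_X_sub_C_dvd_iff_le_roots hfne S).2 (Multiset.filter_le _ _)
  set P : ℂ[X] := (S.map fun a => Polynomial.X - Polynomial.C a).prod with hP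
  have hPg : P * g ≠ 0 := by rw [← hg]; exact hfne
  have hgne : g ≠ 0 := right_ne_zero_of_mul hPg
  have hfPg : ∀ z, ‖f.eval z‖ = pn S z * ‖g.eval z‖ := by
    intro z
    rw [hg, eval_mul, norm_mul, ← norm_eval]
  have hgz : ∀ w ∈ ball (0 : ℂ) R, g.eval w ≠ 0 := by
    intro w hw h0
    have hwR : ‖w‖ ≤ R := (mem_ball_zero_iff.1 hw).le
    have h1 : f.roots = S + g.roots := by
      conv_lhs => rw [hg]
      rw [roots_mul hPg, hP, roots_multiset_prod_X_sub_C]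
    have h2 := congrArg (Multiset.count w) h1
    rw [Multiset.count_add, hS, Multiset.count_filter_of_pos (p := fun w : ℂ => ‖w‖ ≤ R) hwR] at h2
    have h3 : 0 < Multiset.count w g.roots := by
      rw [Multiset.count_pos, mem_roots hgne]
      exact h0
    omega
  -- the growth of `g`
  have hgd : Differentiable ℂ (fun z => g.eval z) := g.differentiable
  have hRm : 0 < R ^ S.card := by positivity
  set K : ℝ := C * Real.exp (C * (2 * R) ^ (8 / 3 : ℝ)) with hK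
  have hgK : ∀ z ∈ closedBall (0 : ℂ) (2 * R), ‖g.eval z‖ ≤ K / R ^ S.card := by
    intro z hz
    have h2R : (2 * R) ≠ 0 := by positivity
    refine Complex.norm_le_of_forall_mem_frontier_norm_le (U := ball (0 : ℂ) (2 * R))
      isBounded_ball hgd.diffContOnCl (fun w hw => ?_) (by rwa [closure_ball _ h2R])
    rw [frontier_ball _ h2R, mem_sphere_zero_iff_norm] at hw
    have h1 := hgrow w
    rw [hfPg, hw] at h1
    rw [le_div_iff₀ hRm, mul_comm]
    exact (mul_le_mul_of_nonneg_right (pn_low S w R hR0.le hw hSR) (norm_nonneg _)).trans h1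
  obtain ⟨h, hd, h0, hexp⟩ := exists_log (fun z => g.eval z) hgd R hR0 hgz
  have hnorm : ∀ w ∈ ball (0 : ℂ) R, ‖g.eval w‖ = ‖g.eval 0‖ * Real.exp (h w).re := by
    intro w hw
    rw [hexp w hw, norm_mul, Complex.norm_exp]
  have hf0 := hf0'
  rw [hfPg] at hf0
  have hP0 : pn S 0 ≤ R ^ S.card := pn_up S R hR0.le hSR
  have hg0 : 1 / 2 ≤ R ^ S.card * ‖g.eval 0‖ :=
    hf0.trans (mul_le_mul_of_nonneg_right hP0 (norm_nonneg _))
  set B : ℝ := R ^ (8 / 3 : ℝ) with hB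
  have hB8 : 1 ≤ B := Real.one_le_rpow hR1 (by norm_num)
  set M : ℝ := 10 * C * B with hM
  have hM0 : 0 < M := by positivity
  have hR83 : (2 * R) ^ (8 / 3 : ℝ) ≤ 8 * B := by
    rw [Real.mul_rpow (by norm_num) hR0.le]
    have h2 : (2 : ℝ) ^ (8 / 3 : ℝ) ≤ 8 := by
      have h3 : (2 : ℝ) ^ (8 / 3 : ℝ) ≤ 2 ^ (3 : ℝ) :=
        Real.rpow_le_rpow_of_exponent_le (by norm_num) (by norm_num)
      refine h3.trans (le_of_eq ?_)
      norm_num
    exact mul_le_mul_of_nonneg_right h2 (by positivity)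
  have hre : ∀ z ∈ ball (0 : ℂ) R, (h z).re ≤ M := by
    intro z hz
    have hz2 : z ∈ closedBall (0 : ℂ) (2 * R) :=
      mem_closedBall_zero_iff.2 (by have := mem_ball_zero_iff.1 hz; linarith)
    have h1 := hgK z hz2
    rw [hnorm z hz, le_div_iff₀ hRm] at h1
    have h2 : 1 / 2 * Real.exp (h z).re ≤ K := by
      have h3 := mul_le_mul_of_nonneg_right hg0 (Real.exp_pos (h z).re).le
      linarith
    have h4 : K ≤ C * Real.exp (C * (8 * B)) := by
      rw [hK]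
      gcongr
    have h5 : Real.exp (h z).re ≤ Real.exp M := by
      have h6 : 2 * C ≤ Real.exp (2 * C) := by
        have := Real.add_one_le_exp (2 * C)
        linarith
      calc Real.exp (h z).re ≤ 2 * C * Real.exp (C * (8 * B)) := by linarith
        _ ≤ Real.exp (2 * C) * Real.exp (C * (8 * B)) :=
            mul_le_mul_of_nonneg_right h6 (Real.exp_pos _).le
        _ = Real.exp (2 * C + C * (8 * B)) := (Real.exp_add _ _).symm
        _ ≤ Real.exp M := by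
            apply Real.exp_le_exp.2
            rw [hM]
            nlinarith
    exact Real.exp_le_exp.1 h5
  obtain ⟨a, b, hq⟩ := quad h R M X hR0 hM0 hX0 hXR hd h0 hre
  have hmem : ∀ u : ℝ, |u| ≤ X → (u : ℂ) ∈ ball (0 : ℂ) R := by
    intro u hu
    rw [mem_ball_zero_iff, Complex.norm_real, Real.norm_eq_abs]
    linarith
  have m1 : |t| ≤ X := by rw [abs_of_pos ht0]; linarith
  have m2 : |-t| ≤ X := by rw [abs_neg]; exact m1
  have m3 : |3 * t| ≤ X := by rw [abs_of_pos (by positivity)]; linarith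
  have m5 : |5 * t| ≤ X := by rw [abs_of_pos (by positivity)]; linarith
  set δ : ℝ := 4 * M * (2 * X / R) ^ 3 with hδ
  -- the logarithms
  have hlog : 3 * (h (t : ℂ)).re + (h ((5 * t : ℝ) : ℂ)).re ≤
      8 * δ + ((h ((-t : ℝ) : ℂ)).re + 3 * (h ((3 * t : ℝ) : ℂ)).re) := by
    have q1 := (abs_le.1 ((Complex.abs_re_le_norm _).trans (hq t m1))).2
    have q2 := (abs_le.1 ((Complex.abs_re_le_norm _).trans (hq (-t) m2))).1
    have q3 := (abs_le.1 ((Complex.abs_re_le_norm _).trans (hq (3 * t) m3))).1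
    have q5 := (abs_le.1 ((Complex.abs_re_le_norm _).trans (hq (5 * t) m5))).2
    have r : ∀ u : ℝ, (h (u : ℂ) - (a * u + b * u ^ 2)).re = (h (u : ℂ)).re - (a.re * u + b.re * u ^ 2) := by
      intro u
      have : (a * u + b * u ^ 2 : ℂ) = ((u : ℝ) : ℂ) * a + ((u ^ 2 : ℝ) : ℂ) * b := by
        push_cast; ring
      rw [this, Complex.sub_re, Complex.add_re, Complex.re_ofReal_mul, Complex.re_ofReal_mul]
      ring
    rw [r] at q1 q2 q3 q5
    nlinarith
  have v4 : pn S t ^ 3 * pn S ((5 * t : ℝ) : ℂ) * (‖g.eval (t : ℂ)‖ ^ 3 * ‖g.eval ((5 * t : ℝ) : ℂ)‖) ≤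
      Q * (pn S ((-t : ℝ) : ℂ) * pn S ((3 * t : ℝ) : ℂ) ^ 3) *
      (Real.exp (8 * δ) * (‖g.eval ((-t : ℝ) : ℂ)‖ * ‖g.eval ((3 * t : ℝ) : ℂ)‖ ^ 3)) := by
    refine mul_le_mul h4 ?_ (by positivity) ?_
    · rw [hnorm _ (hmem t m1), hnorm _ (hmem (5 * t) m5), hnorm _ (hmem (-t) m2),
        hnorm _ (hmem (3 * t) m3)]
      have h5 : Real.exp (h (t : ℂ)).re ^ 3 * Real.exp (h ((5 * t : ℝ) : ℂ)).re ≤
          Real.exp (8 * δ) * (Real.exp (h ((-t : ℝ) : ℂ)).re * Real.exp (h ((3 * t : ℝ) : ℂ)).re ^ 3) := by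
        rw [← Real.exp_nat_mul, ← Real.exp_nat_mul, ← Real.exp_add, ← Real.exp_add, ← Real.exp_add]
        apply Real.exp_le_exp.2
        simp only [Nat.cast_ofNat]
        linarith
      calc (‖g.eval 0‖ * Real.exp (h (t : ℂ)).re) ^ 3 * (‖g.eval 0‖ * Real.exp (h ((5 * t : ℝ) : ℂ)).re)
          = ‖g.eval 0‖ ^ 4 * (Real.exp (h (t : ℂ)).re ^ 3 * Real.exp (h ((5 * t : ℝ) : ℂ)).re) := by
            ring
        _ ≤ ‖g.eval 0‖ ^ 4 * (Real.exp (8 * δ) * (Real.exp (h ((-t : ℝ) : ℂ)).re *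
            Real.exp (h ((3 * t : ℝ) : ℂ)).re ^ 3)) := mul_le_mul_of_nonneg_left h5 (by positivity)
        _ = _ := by ring
    · have := pn_nonneg S ((-t : ℝ) : ℂ)
      have := pn_nonneg S ((3 * t : ℝ) : ℂ)
      positivity
  rw [hfPg, hfPg, hfPg, hfPg]
  refine le_trans (le_of_eq ?_) (v4.trans (le_of_eq ?_))
  · ring
  · ring

/-- **The power law.** -/
theorem clp : ∀ C c : ℝ, 1 ≤ C → 0 < c → ∃ K : ℝ, 1 ≤ K ∧ ∀ (f : Polynomial ℂ) (R : ℝ), K ≤ R →
    (∀ w, ‖f.eval w‖ ≤ C * Real.exp (C * ‖w‖ ^ (8 / 3 : ℝ))) →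
    (∀ x : ℝ, 0 ≤ x → x ≤ R ^ (1 / 5 : ℝ) → 1 / 2 ≤ ‖f.eval (x : ℂ)‖ ∧ ‖f.eval (x : ℂ)‖ ≤ 1) →
    (∀ x : ℝ, 0 ≤ x → x ≤ R ^ (1 / 5 : ℝ) →
      ‖f.eval ((-x : ℝ) : ℂ)‖ ≤ C * Real.exp (-(c * x ^ (4 / 3 : ℝ)))) →
    R ^ (4 / 15 : ℝ) ≤ K * ((f.roots.filter (fun w => ‖w‖ ≤ R)).card : ℝ) := by
  classical
  intro C c hC hc
  have hC0 : 0 < C := by linarith
  -- the constants
  set ε : ℝ := min 1 (c / (600000 * C)) with hε
  have hε0 : 0 < ε := by positivity
  have hε1 : ε ≤ 1 := min_le_left _ _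
  have hεc : 600000 * C * ε ≤ c := by
    have h1 : ε ≤ c / (600000 * C) := min_le_right _ _
    rw [le_div_iff₀ (by positivity)] at h1
    linarith
  set A : ℝ := c / 2 * (ε / 10) ^ (4 / 3 : ℝ) with hA
  have hA0 : 0 < A := by positivity
  set y : ℝ := (16 * C + 48) / A with hy
  have hy0 : 0 < y := by positivity
  refine ⟨(y + 2) ^ 4, one_le_pow₀ (by linarith), ?_⟩
  intro f R hR hgrow hpos hneg
  have h16 : (16 : ℝ) ≤ (y + 2) ^ 4 := by
    have : (2 : ℝ) ^ 4 ≤ (y + 2) ^ 4 := pow_le_pow_left₀ (by norm_num) (by linarith) 4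
    linarith
  have hR16 : 16 ≤ R := by linarith
  have hR1 : 1 ≤ R := by linarith
  have hR0 : 0 < R := by linarith
  -- the root of order 15
  set ρ : ℝ := R ^ (1 / 15 : ℝ) with hρ
  have hρ1 : 1 ≤ ρ := Real.one_le_rpow hR1 (by norm_num)
  have hρ0 : 0 < ρ := by linarith
  have hρp : ∀ n : ℕ, ρ ^ n = R ^ ((n : ℝ) / 15) := by
    intro n
    rw [hρ, ← Real.rpow_natCast, ← Real.rpow_mul hR0.le]
    congr 1
    ring
  have e3 : R ^ (1 / 5 : ℝ) = ρ ^ 3 := by rw [hρp]; norm_num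
  have e4 : R ^ (4 / 15 : ℝ) = ρ ^ 4 := by rw [hρp]; norm_num
  have e15 : R = ρ ^ 15 := by rw [hρp]; norm_num
  have e40 : R ^ (8 / 3 : ℝ) = ρ ^ 40 := by rw [hρp]; norm_num
  rw [e3] at hpos hneg
  rw [e4]
  set S : Multiset ℂ := f.roots.filter (fun w => ‖w‖ ≤ R) with hS
  set X : ℝ := ε * ρ ^ 3 with hX
  have hX0 : 0 < X := by positivity
  have hXρ : X ≤ ρ ^ 3 := mul_le_of_le_one_left (by positivity) hε1
  have hXR : 4 * X ≤ R := by
    have h1 : ρ ^ 3 ≤ ρ ^ 7 := pow_le_pow_right₀ hρ1 (by norm_num)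
    have h2 : 4 ≤ ρ ^ 8 := by
      by_contra hcon
      push Not at hcon
      have h3 : ρ ^ 7 ≤ ρ ^ 8 := pow_le_pow_right₀ hρ1 (by norm_num)
      have h4 : ρ ^ 15 < 16 := by
        calc ρ ^ 15 = ρ ^ 7 * ρ ^ 8 := by ring
          _ < 4 * 4 := mul_lt_mul'' (lt_of_le_of_lt h3 hcon) hcon (by positivity) (by positivity)
          _ = 16 := by norm_num
      rw [← e15] at h4
      linarith
    rw [e15]
    calc 4 * X ≤ 4 * ρ ^ 7 := by linarith
      _ ≤ ρ ^ 8 * ρ ^ 7 := mul_le_mul_of_nonneg_right h2 (by positivity)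
      _ = ρ ^ 15 := by ring
  -- the good point
  obtain ⟨t, ht1, ht2, hts, htw⟩ := good S (X / 10) (by positivity)
  have ht0 : 0 < t := by have : 0 < X / 10 := by positivity
                         linarith
  have ht5 : 5 * t ≤ X := by linarith
  have h4 := pn_four S t ht0 hts
  have hf0 := hpos 0 le_rfl (by positivity)
  rw [Complex.ofReal_zero] at hf0
  have v5 := setup C R X hC hR1 hX0 hXR f hgrow hf0.1 t _ ht0 ht5 (Real.exp_pos _).le h4
  have b1 := (hpos t ht0.le (by linarith)).1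
  have b5 := (hpos (5 * t) (by positivity) (by linarith)).1
  have b3 := (hpos (3 * t) (by positivity) (by linarith)).2
  have b0 := hneg t ht0.le (by linarith)
  have v6 : 1 / 16 ≤ ‖f.eval (t : ℂ)‖ ^ 3 * ‖f.eval ((5 * t : ℝ) : ℂ)‖ := by
    have h5 : (1 / 2 : ℝ) ^ 3 * (1 / 2) ≤ ‖f.eval (t : ℂ)‖ ^ 3 * ‖f.eval ((5 * t : ℝ) : ℂ)‖ := by
      gcongr
    refine le_trans (le_of_eq ?_) h5
    norm_num
  -- the error terms
  have w1 : √(2 * t) * sw S t ≤ 48 * S.card := by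
    have hsw : 0 ≤ sw S t := by
      unfold sw
      refine Multiset.sum_nonneg fun x hx => ?_
      rw [Multiset.mem_map] at hx
      obtain ⟨a, -, rfl⟩ := hx
      unfold wt
      rw [ph_eq, ph_eq]
      positivity
    have h5 : √(2 * t) ≤ 2 * √(X / 10) := by
      have h6 : 2 * t ≤ 4 * (X / 10) := by linarith
      calc √(2 * t) ≤ √(4 * (X / 10)) := Real.sqrt_le_sqrt h6
        _ = 2 * √(X / 10) := by
          rw [Real.sqrt_mul (by norm_num), show (4 : ℝ) = 2 ^ 2 by norm_num,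
            Real.sqrt_sq (by norm_num)]
    calc √(2 * t) * sw S t ≤ 2 * √(X / 10) * sw S t := mul_le_mul_of_nonneg_right h5 hsw
      _ = 2 * (sw S t * √(X / 10)) := by ring
      _ ≤ 2 * (24 * S.card) := by linarith
      _ = 48 * S.card := by ring
  have w2 : 8 * (4 * (10 * C * R ^ (8 / 3 : ℝ)) * (2 * X / R) ^ 3) = 2560 * C * ε ^ 3 * ρ ^ 4 := by
    rw [e40, e15, hX]
    field_simp
    ring
  have w3 : (ε / 10) ^ (4 / 3 : ℝ) * ρ ^ 4 ≤ t ^ (4 / 3 : ℝ) := by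
    have h5 : (X / 10) ^ (4 / 3 : ℝ) ≤ t ^ (4 / 3 : ℝ) :=
      Real.rpow_le_rpow (by positivity) ht1 (by norm_num)
    refine le_trans (le_of_eq ?_) h5
    have h6 : X / 10 = ε / 10 * ρ ^ 3 := by rw [hX]; ring
    rw [h6, Real.mul_rpow (by positivity) (by positivity), ← Real.rpow_natCast ρ 3,
      ← Real.rpow_mul hρ0.le, ← Real.rpow_natCast ρ 4]
    norm_num
  have w4 : 2560 * C * ε ^ 3 ≤ A := by
    have h5 : (ε / 10) ^ (4 / 3 : ℝ) = (ε / 10) ^ (2 : ℝ) * (ε / 10) ^ (-(2 / 3) : ℝ) := by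
      rw [← Real.rpow_add (by positivity)]
      norm_num
    have h6 : 1 ≤ (ε / 10) ^ (-(2 / 3) : ℝ) :=
      Real.one_le_rpow_of_pos_of_le_one_of_nonpos (by positivity) (by linarith) (by norm_num)
    have h7 : (ε / 10) ^ 2 ≤ (ε / 10) ^ (4 / 3 : ℝ) := by
      rw [h5, Real.rpow_two]
      exact le_mul_of_one_le_right (by positivity) h6
    have h8 : 2560 * C * ε ^ 3 ≤ c / 2 * (ε / 10) ^ 2 := by
      have h9 : 0 ≤ ε ^ 2 := sq_nonneg _
      nlinarith [mul_le_mul_of_nonneg_right hεc h9, mul_nonneg (mul_nonneg hC0.le hε0.le) h9]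
    rw [hA]
    exact h8.trans (mul_le_mul_of_nonneg_left h7 (by positivity))
  -- the final inequality
  have v7 : ‖f.eval ((-t : ℝ) : ℂ)‖ * ‖f.eval ((3 * t : ℝ) : ℂ)‖ ^ 3 ≤
      C * Real.exp (-(c * t ^ (4 / 3 : ℝ))) := by
    have h5 : ‖f.eval ((3 * t : ℝ) : ℂ)‖ ^ 3 ≤ 1 := pow_le_one₀ (norm_nonneg _) b3
    calc ‖f.eval ((-t : ℝ) : ℂ)‖ * ‖f.eval ((3 * t : ℝ) : ℂ)‖ ^ 3
        ≤ ‖f.eval ((-t : ℝ) : ℂ)‖ * 1 := mul_le_mul_of_nonneg_left h5 (norm_nonneg _)
      _ ≤ C * Real.exp (-(c * t ^ (4 / 3 : ℝ))) := by rw [mul_one]; exact b0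
  have v8 : 1 / 16 ≤ Real.exp (48 * S.card) * Real.exp (A * ρ ^ 4) *
      (Real.exp (16 * C) / 16 * Real.exp (-(2 * A * ρ ^ 4))) := by
    have h5 : Real.exp (√(2 * t) * sw S t) ≤ Real.exp (48 * S.card) := Real.exp_le_exp.2 w1
    have h6 : Real.exp (8 * (4 * (10 * C * R ^ (8 / 3 : ℝ)) * (2 * X / R) ^ 3)) ≤
        Real.exp (A * ρ ^ 4) := by
      rw [w2]
      exact Real.exp_le_exp.2 (mul_le_mul_of_nonneg_right w4 (by positivity))
    have h7 : C * Real.exp (-(c * t ^ (4 / 3 : ℝ))) ≤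
        Real.exp (16 * C) / 16 * Real.exp (-(2 * A * ρ ^ 4)) := by
      refine mul_le_mul ?_ ?_ (Real.exp_pos _).le (by positivity)
      · have := Real.add_one_le_exp (16 * C)
        linarith
      · apply Real.exp_le_exp.2
        have h8 := mul_le_mul_of_nonneg_left w3 hc.le
        have h9 : 2 * A * ρ ^ 4 = c * ((ε / 10) ^ (4 / 3 : ℝ) * ρ ^ 4) := by rw [hA]; ring
        rw [h9]
        linarith
    refine v6.trans (v5.trans ?_)
    refine mul_le_mul (mul_le_mul h5 h6 (Real.exp_pos _).le (Real.exp_pos _).le)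
      (v7.trans h7) (by positivity) (by positivity)
  have v9 : A * ρ ^ 4 ≤ 16 * C + 48 * S.card := by
    have h5 : Real.exp (48 * S.card) * Real.exp (A * ρ ^ 4) *
        (Real.exp (16 * C) / 16 * Real.exp (-(2 * A * ρ ^ 4))) =
        1 / 16 * Real.exp (48 * S.card + 16 * C - A * ρ ^ 4) := by
      have h6 : Real.exp (48 * S.card + 16 * C - A * ρ ^ 4) =
          Real.exp (48 * S.card) * Real.exp (A * ρ ^ 4) * Real.exp (16 * C) *
            Real.exp (-(2 * A * ρ ^ 4)) := by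
        rw [← Real.exp_add, ← Real.exp_add, ← Real.exp_add]
        congr 1
        ring
      rw [h6]
      ring
    rw [h5] at v8
    have h6 : Real.exp 0 ≤ Real.exp (48 * S.card + 16 * C - A * ρ ^ 4) := by
      rw [Real.exp_zero]
      linarith
    have h7 := Real.exp_le_exp.1 h6
    linarith
  have hyA : y * A = 16 * C + 48 := by rw [hy]; field_simp
  rcases Nat.eq_zero_or_pos S.card with hz | hz
  · exfalso
    rw [hz, Nat.cast_zero, mul_zero, add_zero] at v9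
    -- `ρ ^ 4` is large
    have h5 : y + 2 ≤ ρ ^ 4 := by
      by_contra hcon
      push Not at hcon
      have h6 : ρ ^ 15 < (y + 2) ^ 4 := by
        calc ρ ^ 15 ≤ ρ ^ 16 := pow_le_pow_right₀ hρ1 (by norm_num)
          _ = (ρ ^ 4) ^ 4 := by ring
          _ < (y + 2) ^ 4 := pow_lt_pow_left₀ hcon (by positivity) (by norm_num)
      rw [← e15] at h6
      linarith
    have h6 : A * (y + 2) ≤ A * ρ ^ 4 := mul_le_mul_of_nonneg_left h5 hA0.le
    nlinarith
  · have hz1 : (1 : ℝ) ≤ S.card := by exact_mod_cast hz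
    have h5 : A * ρ ^ 4 ≤ A * (y * S.card) := by
      have h6 : A * (y * S.card) = (16 * C + 48) * S.card := by rw [← hyA]; ring
      rw [h6]
      nlinarith
    have h6 : ρ ^ 4 ≤ y * S.card := le_of_mul_le_mul_left h5 hA0
    have h7 : y ≤ (y + 2) ^ 4 := by
      have h8 : (y + 2) ^ 1 ≤ (y + 2) ^ 4 := pow_le_pow_right₀ (by linarith) (by norm_num)
      rw [pow_one] at h8
      linarith
    exact h6.trans (mul_le_mul_of_nonneg_right h7 (by linarith))

end Pool.Agent.Y932.NE.Clp
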