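import Pool.Agent.Y554.NE.Stm2

/-!
# Project NE: a zero close to the origin (S_CLO)
-/

set_option autoImplicit false

open Metric Set

namespace Pool.Agent.Y932.NE.Clo

/-- logarithm of a function without zeros on a disc -/
theorem exists_log (f : ℂ → ℂ) (hf : Differentiable ℂ f) (R : ℝ) (hR : 0 < R)
    (h0 : ∀ w ∈ ball (0 : ℂ) R, f w ≠ 0) :
    ∃ h : ℂ → ℂ, DifferentiableOn ℂ h (ball 0 R) ∧ h 0 = 0 ∧
      ∀ w ∈ ball (0 : ℂ) R, f w = f 0 * Complex.exp (h w) := by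
  have hd : Differentiable ℂ (deriv f) := by
    intro z
    exact (hf.analyticAt z).deriv.differentiableAt
  have h1 : DifferentiableOn ℂ (fun z => deriv f z / f z) (ball 0 R) :=
    hd.differentiableOn.div hf.differentiableOn h0
  obtain ⟨g, hg⟩ := h1.isExactOn_ball
  have hmem : (0 : ℂ) ∈ ball (0 : ℂ) R := mem_ball_self hR
  refine ⟨fun z => g z - g 0, ?_, sub_self _, ?_⟩
  · intro z hz
    exact ((hg z hz).sub_const (g 0)).differentiableAt.differentiableWithinAt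
  · have h2 : ∀ z ∈ ball (0 : ℂ) R,
        HasDerivAt (fun z => f z * Complex.exp (-(g z - g 0))) 0 z := by
      intro z hz
      have h3 : HasDerivAt (fun z => -(g z - g 0)) (-(deriv f z / f z)) z :=
        ((hg z hz).sub_const (g 0)).neg
      have h4 := (hf z).hasDerivAt.mul h3.cexp
      have h5 := h0 z hz
      have h6 : deriv f z * Complex.exp (-(g z - g 0)) + f z * (Complex.exp (-(g z - g 0)) *
          -(deriv f z / f z)) = 0 := by
        field_simp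
        ring
      rw [h6] at h4
      exact h4
    have h3 : ∀ w ∈ ball (0 : ℂ) R, f w * Complex.exp (-(g w - g 0)) =
        f 0 * Complex.exp (-(g 0 - g 0)) := by
      intro w hw
      exact isOpen_ball.is_const_of_deriv_eq_zero (convex_ball 0 R).isPreconnected
        (f := fun z => f z * Complex.exp (-(g z - g 0)))
        (fun z hz => (h2 z hz).differentiableAt.differentiableWithinAt)
        (fun z hz => (h2 z hz).deriv) hw hmem
    intro w hw
    have h4 := h3 w hw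
    rw [sub_self, neg_zero, Complex.exp_zero, mul_one] at h4
    rw [← h4, mul_assoc, ← Complex.exp_add]
    simp

/-- three evaluations of an analytic function with `h 0 = 0` determine it at `-x` up to the third
order -/
theorem combo (h : ℂ → ℂ) (R M : ℝ) (hR : 0 < R) (hM : 0 < M)
    (hd : DifferentiableOn ℂ h (ball 0 R)) (h0 : h 0 = 0)
    (hre : ∀ z ∈ ball (0 : ℂ) R, (h z).re ≤ M) (x : ℝ) (hx : 0 < x) (hxR : 4 * x ≤ R) :
    ‖h ((-x : ℝ) : ℂ) - 3 * h (x : ℂ) + 8 * h ((x / 2 : ℝ) : ℂ)‖ ≤ 20 * M * (2 * x / R) ^ 3 := by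
  have hR2 : 0 < R / 2 := by positivity
  have hsub : closedBall (0 : ℂ) (R / 2) ⊆ ball 0 R := closedBall_subset_ball (by linarith)
  have hb : ∀ z ∈ sphere (0 : ℂ) (R / 2), ‖h z‖ ≤ 2 * M := by
    intro z hz
    have hz' : ‖z‖ = R / 2 := by rwa [mem_sphere_zero_iff_norm] at hz
    have h1 := Complex.borelCaratheodory_zero hM hd (fun z hz => hre z hz) hR
      (hsub (sphere_subset_closedBall hz)) h0
    rw [hz'] at h1
    refine h1.trans (le_of_eq ?_)
    field_simp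
    ring
  have hdc : DiffContOnCl ℂ h (ball 0 (R / 2)) := by
    refine DifferentiableOn.diffContOnCl ?_
    rw [closure_ball _ hR2.ne']
    exact hd.mono hsub
  have hcoef : ∀ n : ℕ, ‖((n.factorial : ℂ))⁻¹ * iteratedDeriv n h 0‖ ≤ 2 * M * (2 / R) ^ n := by
    intro n
    have h1 := Complex.norm_iteratedDeriv_le_of_forall_mem_sphere_norm_le n hR2 hdc hb
    have hn : (0 : ℝ) < n.factorial := by exact_mod_cast n.factorial_pos
    rw [norm_mul, norm_inv, Complex.norm_natCast]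
    calc ((n.factorial : ℝ))⁻¹ * ‖iteratedDeriv n h 0‖
        ≤ ((n.factorial : ℝ))⁻¹ * (n.factorial * (2 * M) / (R / 2) ^ n) :=
          mul_le_mul_of_nonneg_left h1 (by positivity)
      _ = 2 * M * (2 / R) ^ n := by
          rw [div_pow, div_pow]
          field_simp
  have hser : ∀ t : ℝ, |t| < R →
      HasSum (fun n : ℕ => ((n.factorial : ℂ))⁻¹ * iteratedDeriv n h 0 * (t : ℂ) ^ n) (h (t : ℂ)) := by
    intro t ht
    have hmem : (t : ℂ) ∈ ball (0 : ℂ) R := by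
      rw [mem_ball_zero_iff, Complex.norm_real]
      exact ht
    have h1 := Complex.hasSum_taylorSeries_on_ball hd hmem
    have h2 : (fun n : ℕ => ((n.factorial : ℂ))⁻¹ * iteratedDeriv n h 0 * (t : ℂ) ^ n) =
        fun n : ℕ => ((n.factorial : ℂ))⁻¹ • ((t : ℂ) - 0) ^ n • iteratedDeriv n h 0 := by
      funext n
      rw [smul_eq_mul, smul_eq_mul, sub_zero]
      ring
    rw [h2]
    exact h1
  have e1 := hser (-x) (by rw [abs_neg, abs_of_pos hx]; linarith)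
  have e2 := hser x (by rw [abs_of_pos hx]; linarith)
  have e3 := hser (x / 2) (by rw [abs_of_pos (by positivity)]; linarith)
  have e4 := (e1.sub (e2.mul_left 3)).add (e3.mul_left 8)
  set a : ℕ → ℂ := fun n => ((n.factorial : ℂ))⁻¹ * iteratedDeriv n h 0 with ha
  have ha0 : a 0 = 0 := by
    simp only [ha, iteratedDeriv_zero, h0, mul_zero]
  have e5 : HasSum (fun n : ℕ => a n * ((-1 : ℂ) ^ n - 3 + 8 * (1 / 2) ^ n) * (x : ℂ) ^ n)
      (h ((-x : ℝ) : ℂ) - 3 * h (x : ℂ) + 8 * h ((x / 2 : ℝ) : ℂ)) := by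
    have e45 : (fun n : ℕ => a n * ((-1 : ℂ) ^ n - 3 + 8 * (1 / 2) ^ n) * (x : ℂ) ^ n) =
        fun n : ℕ => ((n.factorial : ℂ))⁻¹ * iteratedDeriv n h 0 * ((-x : ℝ) : ℂ) ^ n -
          3 * (((n.factorial : ℂ))⁻¹ * iteratedDeriv n h 0 * (x : ℂ) ^ n) +
          8 * (((n.factorial : ℂ))⁻¹ * iteratedDeriv n h 0 * ((x / 2 : ℝ) : ℂ) ^ n) := by
      funext n
      have i1 : (((-x : ℝ) : ℂ)) ^ n = (-1) ^ n * (x : ℂ) ^ n := by
        rw [← mul_pow]; push_cast; ring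
      have i2 : (((x / 2 : ℝ) : ℂ)) ^ n = (1 / 2) ^ n * (x : ℂ) ^ n := by
        rw [← mul_pow]; push_cast; ring
      rw [i1, i2]
      simp only [ha]
      ring
    rw [e45]
    exact e4
  have e6 := (hasSum_nat_add_iff' 3).2 e5
  have e7 : ∑ n ∈ Finset.range 3, a n * ((-1 : ℂ) ^ n - 3 + 8 * (1 / 2) ^ n) * (x : ℂ) ^ n = 0 := by
    rw [Finset.sum_range_succ, Finset.sum_range_succ, Finset.sum_range_one, ha0]
    norm_num
  rw [e7, sub_zero] at e6
  set q : ℝ := 2 * x / R with hq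
  have hq0 : 0 < q := by positivity
  have hq1 : q ≤ 1 / 2 := by
    rw [hq, div_le_iff₀ hR]
    linarith
  have hgeo : HasSum (fun n : ℕ => 10 * M * q ^ 3 * q ^ n) (10 * M * q ^ 3 * (1 - q)⁻¹) :=
    (hasSum_geometric_of_lt_one hq0.le (by linarith)).mul_left _
  have hterm : ∀ n : ℕ, ‖a (n + 3) * ((-1 : ℂ) ^ (n + 3) - 3 + 8 * (1 / 2) ^ (n + 3)) *
      (x : ℂ) ^ (n + 3)‖ ≤ 10 * M * q ^ 3 * q ^ n := by
    intro n
    have j1 : ‖(-1 : ℂ) ^ (n + 3) - 3 + 8 * (1 / 2) ^ (n + 3)‖ ≤ 5 := by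
      have k1 : ‖(-1 : ℂ) ^ (n + 3)‖ = 1 := by rw [norm_pow, norm_neg, norm_one, one_pow]
      have k2 : ‖(8 : ℂ) * (1 / 2) ^ (n + 3)‖ ≤ 1 := by
        rw [norm_mul, norm_pow, norm_div, norm_one, Complex.norm_ofNat, Complex.norm_ofNat, pow_add]
        have k3 : (1 / 2 : ℝ) ^ n ≤ 1 := pow_le_one₀ (by norm_num) (by norm_num)
        nlinarith
      have k4 : ‖(3 : ℂ)‖ = 3 := by norm_num
      calc ‖(-1 : ℂ) ^ (n + 3) - 3 + 8 * (1 / 2) ^ (n + 3)‖
          ≤ ‖(-1 : ℂ) ^ (n + 3) - 3‖ + ‖(8 : ℂ) * (1 / 2) ^ (n + 3)‖ := norm_add_le _ _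
        _ ≤ (‖(-1 : ℂ) ^ (n + 3)‖ + ‖(3 : ℂ)‖) + 1 := add_le_add (norm_sub_le _ _) k2
        _ = 5 := by rw [k1, k4]; norm_num
    rw [norm_mul, norm_mul, norm_pow, Complex.norm_real, Real.norm_eq_abs, abs_of_pos hx]
    have j2 := hcoef (n + 3)
    calc ‖a (n + 3)‖ * ‖(-1 : ℂ) ^ (n + 3) - 3 + 8 * (1 / 2) ^ (n + 3)‖ * x ^ (n + 3)
        ≤ (2 * M * (2 / R) ^ (n + 3)) * 5 * x ^ (n + 3) := by
          gcongr
      _ = 10 * M * q ^ 3 * q ^ n := by
          rw [hq, mul_assoc (10 * M), ← pow_add, add_comm 3 n, div_pow, div_pow, mul_pow]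
          ring
  have h8 : ‖h ((-x : ℝ) : ℂ) - 3 * h (x : ℂ) + 8 * h ((x / 2 : ℝ) : ℂ)‖ ≤
      10 * M * q ^ 3 * (1 - q)⁻¹ := by
    rw [← e6.tsum_eq]
    exact tsum_of_norm_bounded hgeo hterm
  have h9 : (1 - q)⁻¹ ≤ 2 := by
    rw [inv_le_comm₀ (by linarith) (by norm_num)]
    linarith
  calc ‖h ((-x : ℝ) : ℂ) - 3 * h (x : ℂ) + 8 * h ((x / 2 : ℝ) : ℂ)‖
      ≤ 10 * M * q ^ 3 * (1 - q)⁻¹ := h8
    _ ≤ 10 * M * q ^ 3 * 2 := mul_le_mul_of_nonneg_left h9 (by positivity)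
    _ = 20 * M * q ^ 3 := by ring

theorem clo : Pool.Agent.Y554.NE.S_CLO := by
  intro C c hC hc
  set X : ℝ := max 1 ((1 + 4096 * C) / c) with hX
  have hX1 : 1 ≤ X := le_max_left _ _
  have hXc : 1 + 4096 * C ≤ c * X := by
    have h1 : (1 + 4096 * C) / c ≤ X := le_max_right _ _
    rw [div_le_iff₀ hc] at h1
    linarith
  set B : ℝ := 480 * C * X ^ 3 with hB
  have hX3 : 1 ≤ X ^ 3 := one_le_pow₀ hX1
  have hBX : 480 * X ≤ B := by
    have h1 : X ≤ X ^ 3 := by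
      have : X ^ 1 ≤ X ^ 3 := pow_le_pow_right₀ hX1 (by norm_num)
      rwa [pow_one] at this
    rw [hB]
    nlinarith
  have hB1 : 1 ≤ B := by linarith
  have hB0 : 0 < B := by linarith
  set R : ℝ := B ^ 3 with hR
  have hR1 : 1 ≤ R := one_le_pow₀ hB1
  have hR0 : 0 < R := by linarith
  have hXR : 4 * X ≤ R := by
    have h1 : B ≤ B ^ 3 := by
      have : B ^ 1 ≤ B ^ 3 := pow_le_pow_right₀ hB1 (by norm_num)
      rwa [pow_one] at this
    linarith
  refine ⟨X, R, hX1, hR1, ?_⟩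
  intro f hf hgrow hpos hneg
  by_contra hcon
  push Not at hcon
  obtain ⟨h, hd, h0, hexp⟩ := exists_log f hf R hR0 fun w hw =>
    hcon w (mem_ball_zero_iff.1 hw).le
  have hX0 : 0 < X := by linarith
  have hf0 := hpos 0 le_rfl hX0.le
  rw [Complex.ofReal_zero] at hf0
  have hf0p : 0 < ‖f 0‖ := by linarith [hf0.1]
  -- the real part of the logarithm
  have hnorm : ∀ w ∈ ball (0 : ℂ) R, ‖f w‖ = ‖f 0‖ * Real.exp (h w).re := by
    intro w hw
    rw [hexp w hw, norm_mul, Complex.norm_exp]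
  set M : ℝ := 3 * C * B ^ 8 with hM
  have hB8 : 1 ≤ B ^ 8 := one_le_pow₀ hB1
  have hM0 : 0 < M := by positivity
  have hR83 : R ^ (8 / 3 : ℝ) = B ^ 8 := by
    rw [hR, ← Real.rpow_natCast B 3, ← Real.rpow_mul hB0.le, ← Real.rpow_natCast B 8]
    norm_num
  have hre : ∀ z ∈ ball (0 : ℂ) R, (h z).re ≤ M := by
    intro z hz
    have h1 := hgrow z
    rw [hnorm z hz] at h1
    have h2 : ‖z‖ ^ (8 / 3 : ℝ) ≤ B ^ 8 := by
      rw [← hR83]
      exact Real.rpow_le_rpow (norm_nonneg _) (mem_ball_zero_iff.1 hz).le (by norm_num)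
    have h3 : C * Real.exp (C * ‖z‖ ^ (8 / 3 : ℝ)) ≤ C * Real.exp (C * B ^ 8) := by
      gcongr
    have h4 : 1 / 2 * Real.exp (h z).re ≤ C * Real.exp (C * B ^ 8) :=
      (mul_le_mul_of_nonneg_right hf0.1 (Real.exp_pos _).le).trans (h1.trans h3)
    have h5 : Real.exp (h z).re ≤ Real.exp M := by
      have h6 : 2 * C ≤ Real.exp (2 * C) := by
        have := Real.add_one_le_exp (2 * C)
        linarith
      calc Real.exp (h z).re ≤ 2 * C * Real.exp (C * B ^ 8) := by linarith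
        _ ≤ Real.exp (2 * C) * Real.exp (C * B ^ 8) :=
            mul_le_mul_of_nonneg_right h6 (Real.exp_pos _).le
        _ = Real.exp (2 * C + C * B ^ 8) := (Real.exp_add _ _).symm
        _ ≤ Real.exp M := by
            apply Real.exp_le_exp.2
            rw [hM]
            nlinarith
    exact Real.exp_le_exp.1 h5
  have hE := combo h R M hR0 hM0 hd h0 hre X hX0 hXR
  have hE1 : 20 * M * (2 * X / R) ^ 3 = 1 := by
    rw [hM, hR, div_pow, ← pow_mul]
    have : B ^ (3 * 3) = B ^ 8 * B := by ring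
    rw [this]
    have hB8' : B ^ 8 ≠ 0 := by positivity
    have h1 : 20 * (3 * C * B ^ 8) * ((2 * X) ^ 3 / (B ^ 8 * B)) = 480 * C * X ^ 3 / B := by
      field_simp
      ring
    rw [h1, ← hB, div_self hB0.ne']
  rw [hE1] at hE
  have hmem : ∀ t : ℝ, |t| ≤ X → (t : ℂ) ∈ ball (0 : ℂ) R := by
    intro t ht
    rw [mem_ball_zero_iff, Complex.norm_real, Real.norm_eq_abs]
    linarith
  have hre2 : -1 ≤ (h ((-X : ℝ) : ℂ)).re - 3 * (h (X : ℂ)).re + 8 * (h ((X / 2 : ℝ) : ℂ)).re := by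
    have h1 := (abs_le.1 ((Complex.abs_re_le_norm _).trans hE)).1
    have h2 : (h ((-X : ℝ) : ℂ) - 3 * h (X : ℂ) + 8 * h ((X / 2 : ℝ) : ℂ)).re =
        (h ((-X : ℝ) : ℂ)).re - 3 * (h (X : ℂ)).re + 8 * (h ((X / 2 : ℝ) : ℂ)).re := by
      simp [Complex.add_re, Complex.sub_re, Complex.mul_re]
    rwa [h2] at h1
  -- the three values
  have v1 : Real.exp (-(h (X : ℂ)).re) ≤ 2 := by
    have h1 := hnorm _ (hmem X (by rw [abs_of_pos hX0]))
    have h2 := (hpos X hX0.le le_rfl).1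
    rw [h1] at h2
    have h3 : 1 / 2 ≤ Real.exp (h (X : ℂ)).re :=
      h2.trans (mul_le_of_le_one_left (Real.exp_pos _).le hf0.2)
    rw [Real.exp_neg, inv_le_comm₀ (Real.exp_pos _) (by norm_num)]
    linarith
  have v2 : Real.exp (h ((X / 2 : ℝ) : ℂ)).re ≤ 2 := by
    have h1 := hnorm _ (hmem (X / 2) (by rw [abs_of_pos (by positivity)]; linarith))
    have h2 := (hpos (X / 2) (by positivity) (by linarith)).2
    rw [h1] at h2
    have h3 : 1 / 2 * Real.exp (h ((X / 2 : ℝ) : ℂ)).re ≤ 1 :=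
      (mul_le_mul_of_nonneg_right hf0.1 (Real.exp_pos _).le).trans h2
    linarith
  have v3 : ‖f 0‖ * Real.exp (h ((-X : ℝ) : ℂ)).re ≤ C * Real.exp (-(c * X ^ (4 / 3 : ℝ))) := by
    rw [← hnorm _ (hmem (-X) (by rw [abs_neg, abs_of_pos hX0]))]
    exact hneg X hX0.le le_rfl
  have hX43 : X ≤ X ^ (4 / 3 : ℝ) := by
    have := Real.rpow_le_rpow_of_exponent_le hX1 (show (1 : ℝ) ≤ 4 / 3 by norm_num)
    rwa [Real.rpow_one] at this
  -- the product of the inequalities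
  set p : ℝ := (h ((-X : ℝ) : ℂ)).re with hp
  set s1 : ℝ := (h (X : ℂ)).re with hs1
  set s2 : ℝ := (h ((X / 2 : ℝ) : ℂ)).re with hs2
  have w1 : Real.exp (-1) ≤ Real.exp p * (Real.exp (-s1) ^ 3 * Real.exp s2 ^ 8) := by
    rw [← Real.exp_nat_mul, ← Real.exp_nat_mul, ← Real.exp_add, ← Real.exp_add]
    apply Real.exp_le_exp.2
    push_cast
    linarith
  have w2 : Real.exp (-s1) ^ 3 * Real.exp s2 ^ 8 ≤ 2 ^ 3 * 2 ^ 8 :=
    mul_le_mul (pow_le_pow_left₀ (Real.exp_pos _).le v1 3)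
      (pow_le_pow_left₀ (Real.exp_pos _).le v2 8) (by positivity) (by positivity)
  have w3 : Real.exp (-1) ≤ Real.exp p * 2048 := by
    refine w1.trans ?_
    refine (mul_le_mul_of_nonneg_left w2 (Real.exp_pos _).le).trans (le_of_eq ?_)
    norm_num
  have w4 : 1 / 2 * Real.exp p ≤ C * Real.exp (-(c * X)) := by
    have h1 : 1 / 2 * Real.exp p ≤ ‖f 0‖ * Real.exp p :=
      mul_le_mul_of_nonneg_right hf0.1 (Real.exp_pos _).le
    refine (h1.trans v3).trans ?_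
    have h2 : Real.exp (-(c * X ^ (4 / 3 : ℝ))) ≤ Real.exp (-(c * X)) := by
      apply Real.exp_le_exp.2
      have := mul_le_mul_of_nonneg_left hX43 hc.le
      linarith
    exact mul_le_mul_of_nonneg_left h2 (by linarith)
  have w5 : Real.exp (-(c * X)) ≤ Real.exp (-1) * Real.exp (-(4096 * C)) := by
    rw [← Real.exp_add]
    apply Real.exp_le_exp.2
    linarith
  have w6 : 4096 * C * Real.exp (-(4096 * C)) < 1 := by
    have h1 := Real.add_one_le_exp (4096 * C)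
    rw [Real.exp_neg, ← div_eq_mul_inv, div_lt_one (Real.exp_pos _)]
    linarith
  have w7 : Real.exp (-1) ≤ 4096 * C * Real.exp (-(c * X)) := by linarith
  have w8 : 4096 * C * Real.exp (-(c * X)) < Real.exp (-1) := by
    calc 4096 * C * Real.exp (-(c * X)) ≤ 4096 * C * (Real.exp (-1) * Real.exp (-(4096 * C))) :=
          mul_le_mul_of_nonneg_left w5 (by positivity)
      _ = Real.exp (-1) * (4096 * C * Real.exp (-(4096 * C))) := by ring
      _ < Real.exp (-1) * 1 := mul_lt_mul_of_pos_left w6 (Real.exp_pos _)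
      _ = Real.exp (-1) := mul_one _
  linarith

end Pool.Agent.Y932.NE.Clo
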